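import Mathlib

set_option autoImplicit false

/-!
# K3 surfaces of Picard number two with an elliptic fibration: the data

The Néron-Severi lattice of such a K3 surface `X` is `ℤ f ⊕ ℤ h` with `f² = 0` (the class of a fibre),
`f · h = k > 0` (the index of the fibration) and `h² = 2a`.
-/

namespace Pool.Agent.Lib.MP_240120_ag

universe u

/-- The algebraic Mukai vectors `(r, x f + y h, s)`, as quadruples `(r, x, y, s)`. -/
abbrev Vec : Type := ℤ × ℤ × ℤ × ℤ

/-- The Mukai pairing `D · D' - r s' - s r'` of `(r, D, s)` and `(r', D', s')`, where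
`D = x f + y h`, `f² = 0`, `f · h = k`, `h² = 2a`. -/
def pair (k a : ℤ) (v w : Vec) : ℤ :=
  k * (v.2.1 * w.2.2.1 + v.2.2.1 * w.2.1) + 2 * a * (v.2.2.1 * w.2.2.1)
    - v.1 * w.2.2.2 - v.2.2.2 * w.1

/-- Multiplication by `exp L`, `L = m f + n h`, the action of the twist by the line bundle `L`:
`(r, D, s) ↦ (r, D + r L, s + D · L + r L² / 2)`. -/
def expo (k a m n : ℤ) (v : Vec) : Vec :=
  (v.1, v.2.1 + v.1 * m, v.2.2.1 + v.1 * n,
    v.2.2.2 + (k * (v.2.1 * n + v.2.2.1 * m) + 2 * a * (v.2.2.1 * n))
      + v.1 * (k * (m * n) + a * (n * n)))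

/-- The reflection `v ↦ v + (v, δ) δ` in a vector `δ` of square `-2`. -/
def refl (k a : ℤ) (δ v : Vec) : Vec :=
  v + pair k a v δ • δ

/-- A complex K3 surface `X` with `NS(X) = ℤ f ⊕ ℤ h`, `f² = 0`, `f · h = k`, `h² = 2a`, with an
elliptic fibration `X ⟶ ℙ¹` with fibre class `f`; its Mukai lattice `H`, its group `CH` of zero-cycles
of degree zero modulo rational equivalence, its points `Pt`, the points `Base` of `ℙ¹`, and the
group `D` of its derived autoequivalences and anti-autoequivalences, with the known theorems on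
them that are used. -/
structure EllipticK3 (k a : ℤ) (H CH Pt Base D : Type*) [AddCommGroup H] [AddCommGroup CH]
    [Group D] where
  /-- The Mukai pairing on the Mukai lattice `H⁰ ⊕ H² ⊕ H⁴`. -/
  B : H →+ H →+ ℤ
  symm : ∀ x y, B x y = B y x
  /-- The algebraic classes `(r, x f + y h, s)` in the Mukai lattice. -/
  alg : Vec →+ H
  pair_alg : ∀ v w, B (alg v) (alg w) = pair k a v w
  /-- The Mukai lattice is unimodular and the algebraic classes are a primitive sublattice: every
  homomorphism from the algebraic classes to `ℤ` is the pairing with some class. -/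
  unimodular : ∀ l : Vec →+ ℤ, ∃ y, ∀ v, B y (alg v) = l v
  /-- The classes orthogonal to the transcendental lattice `T(X)` are algebraic. -/
  primitive : ∀ y, (∀ t, (∀ v, B t (alg v) = 0) → B y t = 0) → ∃ v, alg v = y
  /-- The fibration. -/
  fib : Pt → Base
  /-- The class of the zero-cycle `x - y`. -/
  cyc : Pt → Pt → CH
  cyc_add : ∀ x y z, cyc x y + cyc y z = cyc x z
  /-- These classes generate the group of zero-cycles of degree zero. -/
  generate : AddSubgroup.closure {z | ∃ x y, z = cyc x y} = ⊤
  /-- The points on the rational curves in `X`. -/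
  rat : Set Pt
  /-- All points on rational curves are rationally equivalent (Beauville-Voisin). -/
  beauville_voisin : ∀ x ∈ rat, ∀ y ∈ rat, cyc x y = 0
  /-- Some rational curve is not contained in a fibre, as every ample class is a sum of classes of
  rational curves (Bogomolov-Mumford): it meets every fibre. -/
  horizontal : ∀ x, ∃ y ∈ rat, fib y = fib x
  /-- `-1` on anti-autoequivalences, `1` on autoequivalences. -/
  sgn : D →* ℤˣ
  /-- The action on the Mukai lattice. -/
  act : D →* AddMonoid.End H
  isometry : ∀ Φ x y, B (act Φ x) (act Φ y) = B x y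
  /-- The action on the zero-cycles of degree zero. -/
  ch : D →* AddMonoid.End CH
  /-- The shift. -/
  shift : ∃ Φ, sgn Φ = 1 ∧ (∀ x, act Φ x = -x) ∧ ∀ z, ch Φ z = -z
  /-- The duality functor. -/
  dual : ∃ Φ, sgn Φ = -1 ∧ (∀ t, (∀ v, B t (alg v) = 0) → act Φ t = -t) ∧
    (∀ v : Vec, act Φ (alg v) = alg (v.1, -v.2.1, -v.2.2.1, v.2.2.2)) ∧ ∀ z, ch Φ z = z
  /-- The twist by the line bundle `m f + n h`. -/
  twist : ∀ m n : ℤ, ∃ Φ, sgn Φ = 1 ∧ (∀ t, (∀ v, B t (alg v) = 0) → act Φ t = t) ∧
    (∀ v : Vec, act Φ (alg v) = alg (expo k a m n v)) ∧ ∀ z, ch Φ z = z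
  /-- The spherical twists (every vector of square `-2` is the Mukai vector of a spherical object
  (Kuleshov, Mukai), and spherical twists act as the identity on zero-cycles of degree zero
  (Huybrechts)). -/
  spherical : ∀ δ : Vec, pair k a δ δ = -2 → ∃ Φ, sgn Φ = 1 ∧
    (∀ t, (∀ v, B t (alg v) = 0) → act Φ t = t) ∧
    (∀ v : Vec, act Φ (alg v) = alg (refl k a δ v)) ∧ ∀ z, ch Φ z = z
  /-- The relative Fourier-Mukai transforms (Bridgeland): for a matrix `(c, e; k d, b)` of
  determinant one with `b ≡ 1` modulo `k` there is an autoequivalence, linear over `ℙ¹`, which acts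
  by this matrix on rank and fibre degree; for suitable kernels it acts on the zero-cycles of degree
  zero of every fibre as the identity (the moduli space of stable sheaves of rank `e` and degree `b`
  on a smooth fibre `F` is identified with `F` by the determinant). -/
  relative : ∀ b c d e : ℤ, c * b - e * (k * d) = 1 → k ∣ b - 1 → ∃ Φ, sgn Φ = 1 ∧
    (∀ t, (∀ v, B t (alg v) = 0) → act Φ t = t) ∧
    (∀ v w : Vec, act Φ (alg v) = alg w →
      w.1 = c * v.1 + e * (k * v.2.2.1) ∧ k * w.2.2.1 = k * d * v.1 + b * (k * v.2.2.1)) ∧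
    ∀ x y, fib x = fib y → ch Φ (cyc x y) = cyc x y
  /-- Autoequivalences acting as the identity on the Mukai lattice act as the identity on the
  zero-cycles of degree zero (known), and anti-autoequivalences do not act as the identity on the
  Mukai lattice (Huybrechts-Macri-Stellari). -/
  faithful : ∀ Φ, act Φ = 1 → sgn Φ = 1 ∧ ∀ z, ch Φ z = z

end Pool.Agent.Lib.MP_240120_ag
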