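import Mathlib
import Pool.Agent.Lib.MP_240120_ag.Defs

set_option autoImplicit false

/-! Basic lemmas: the action on algebraic classes in matrix form. -/

namespace Pool.Agent.Lib.MP_240120_ag

/-- The matrix of an algebraic class. -/
def mat (k a : ℤ) (v : Vec) : Matrix (Fin 2) (Fin 2) ℤ :=
  !![v.2.2.1, v.1; v.2.2.2, k * v.2.1 + a * v.2.2.1]

theorem mat_inj {k a : ℤ} (hk : k ≠ 0) {v w : Vec} (h : mat k a v = mat k a w) : v = w := by
  obtain ⟨r, x, y, s⟩ := v
  obtain ⟨r', x', y', s'⟩ := w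
  have h00 : y = y' := by simpa [mat] using congrFun (congrFun h 0) 0
  have h01 : r = r' := by simpa [mat] using congrFun (congrFun h 0) 1
  have h10 : s = s' := by simpa [mat] using congrFun (congrFun h 1) 0
  have h11 : k * x + a * y = k * x' + a * y' := by
    simpa [mat] using congrFun (congrFun h 1) 1
  subst h00 h01 h10
  have : k * x = k * x' := by linarith
  have hx : x = x' := mul_left_cancel₀ hk this
  rw [hx]

theorem pair_nondeg {k a : ℤ} (hk : k ≠ 0) {m : Vec} (h : ∀ v, pair k a m v = 0) : m = 0 := by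
  obtain ⟨r, x, y, s⟩ := m
  have h1 := h (1, 0, 0, 0)
  have h2 := h (0, 0, 0, 1)
  have h3 := h (0, 1, 0, 0)
  have h4 := h (0, 0, 1, 0)
  simp only [pair, mul_zero, mul_one, add_zero, zero_add, zero_sub, sub_zero, zero_mul] at h1 h2 h3 h4
  have hs : s = 0 := by linarith
  have hr : r = 0 := by linarith
  have hy : y = 0 := by
    rcases mul_eq_zero.mp h3 with h | h
    · exact absurd h hk
    · exact h
  subst hy
  have hx : x = 0 := by
    have : k * x = 0 := by linarith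
    rcases mul_eq_zero.mp this with h | h
    · exact absurd h hk
    · exact h
  subst hr hs hx
  rfl

namespace EllipticK3

variable {k a : ℤ} {H CH Pt Base D : Type*} [AddCommGroup H] [AddCommGroup CH] [Group D]
  (X : EllipticK3 k a H CH Pt Base D)

/-- Transcendental classes. -/
def IsT (t : H) : Prop := ∀ v, X.B t (X.alg v) = 0

/-- `Φ` acts as the identity on the transcendental lattice. -/
def TId (Φ : D) : Prop := ∀ t, X.IsT t → X.act Φ t = t

/-- `Φ` acts on the zero-cycles of degree zero by the expected sign. -/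
def Ok (Φ : D) : Prop := ∀ z, X.ch Φ z = (X.sgn Φ : ℤ) • z

/-- `Φ` acts by `A ↦ g A h` on algebraic classes. -/
def Rep (Φ : D) (g h : Matrix (Fin 2) (Fin 2) ℤ) : Prop :=
  X.TId Φ ∧ ∀ v, ∃ w, X.act Φ (X.alg v) = X.alg w ∧ mat k a w = g * mat k a v * h

theorem alg_inj (hk : k ≠ 0) {v w : Vec} (h : X.alg v = X.alg w) : v = w := by
  have h0 : X.alg (v - w) = 0 := by rw [map_sub, h, sub_self]
  have : v - w = 0 := by
    apply pair_nondeg (a := a) hk
    intro u
    rw [← X.pair_alg, h0, map_zero, AddMonoidHom.zero_apply]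
  exact sub_eq_zero.mp this

theorem act_inv_act (Φ : D) (x : H) : X.act Φ⁻¹ (X.act Φ x) = x := by
  have : X.act (Φ⁻¹ * Φ) x = x := by rw [inv_mul_cancel, map_one]; rfl
  rw [map_mul] at this
  exact this

theorem act_act_inv (Φ : D) (x : H) : X.act Φ (X.act Φ⁻¹ x) = x := by
  have : X.act (Φ * Φ⁻¹) x = x := by rw [mul_inv_cancel, map_one]; rfl
  rw [map_mul] at this
  exact this

theorem act_mul (Φ Ψ : D) (x : H) : X.act (Φ * Ψ) x = X.act Φ (X.act Ψ x) := by
  rw [map_mul]; rfl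

theorem ch_mul (Φ Ψ : D) (z : CH) : X.ch (Φ * Ψ) z = X.ch Φ (X.ch Ψ z) := by
  rw [map_mul]; rfl

theorem TId.inv {X : EllipticK3 k a H CH Pt Base D} {Φ : D} (h : X.TId Φ) : X.TId Φ⁻¹ := by
  intro t ht
  conv_lhs => rw [← h t ht]
  exact X.act_inv_act Φ t

theorem TId.mul {X : EllipticK3 k a H CH Pt Base D} {Φ Ψ : D} (h : X.TId Φ) (h' : X.TId Ψ) :
    X.TId (Φ * Ψ) := by
  intro t ht
  rw [act_mul, h' t ht, h t ht]

/-- Elements acting as the identity on `T` preserve the algebraic classes. -/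
theorem TId.exists_alg {X : EllipticK3 k a H CH Pt Base D} {Φ : D} (h : X.TId Φ) (v : Vec) :
    ∃ w, X.act Φ (X.alg v) = X.alg w := by
  obtain ⟨w, hw⟩ := X.primitive (X.act Φ (X.alg v)) (by
    intro t ht
    have h1 : X.B (X.act Φ (X.alg v)) (X.act Φ t) = X.B (X.alg v) t := X.isometry _ _ _
    rw [h t ht] at h1
    rw [h1, X.symm]
    exact ht v)
  exact ⟨w, hw.symm⟩

/-- `Φ x - x` is algebraic if `Φ` is the identity on `T`. -/
theorem TId.sub_alg {X : EllipticK3 k a H CH Pt Base D} {Φ : D} (h : X.TId Φ) (x : H) :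
    ∃ m, X.act Φ x - x = X.alg m := by
  obtain ⟨w, hw⟩ := X.primitive (X.act Φ x - x) (by
    intro t ht
    have h1 : X.B (X.act Φ x) (X.act Φ t) = X.B x t := X.isometry _ _ _
    rw [h t ht] at h1
    rw [map_sub, AddMonoidHom.sub_apply, h1, sub_self])
  exact ⟨w, hw.symm⟩

/-- An element acting as the identity on `T` and on the algebraic classes is the identity. -/
theorem TId.act_eq_one {X : EllipticK3 k a H CH Pt Base D} (hk : k ≠ 0) {Φ : D} (h : X.TId Φ)
    (h' : ∀ v, X.act Φ (X.alg v) = X.alg v) : X.act Φ = 1 := by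
  ext x
  obtain ⟨m, hm⟩ := h.sub_alg x
  have : m = 0 := by
    apply pair_nondeg (a := a) hk
    intro u
    rw [← X.pair_alg, ← hm, map_sub, AddMonoidHom.sub_apply]
    have h1 : X.B (X.act Φ x) (X.act Φ (X.alg u)) = X.B x (X.alg u) := X.isometry _ _ _
    rw [h'] at h1
    rw [h1, sub_self]
  rw [this, map_zero] at hm
  exact sub_eq_zero.mp hm

theorem units_mul_self (u : ℤˣ) : (u : ℤ) * (u : ℤ) = 1 := by
  rcases Int.units_eq_one_or u with h | h <;> subst h <;> norm_num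

theorem Ok.mul {X : EllipticK3 k a H CH Pt Base D} {Φ Ψ : D} (h : X.Ok Φ) (h' : X.Ok Ψ) :
    X.Ok (Φ * Ψ) := by
  intro z
  rw [ch_mul, h' z, map_zsmul, h z, map_mul, Units.val_mul, mul_smul, smul_comm]

theorem Ok.cancel {X : EllipticK3 k a H CH Pt Base D} {Φ Ψ : D} (h : X.Ok (Φ * Ψ))
    (h' : X.Ok Ψ) : X.Ok Φ := by
  intro z
  have h1 := h ((X.sgn Ψ : ℤ) • z)
  rw [ch_mul, map_zsmul, h' z, smul_smul, units_mul_self, one_smul, map_mul, Units.val_mul,
    smul_smul, mul_assoc, units_mul_self, mul_one] at h1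
  exact h1

theorem Ok.cancel_left {X : EllipticK3 k a H CH Pt Base D} {Φ Ψ : D} (h : X.Ok (Φ * Ψ))
    (h' : X.Ok Φ) : X.Ok Ψ := by
  intro z
  have h1 := h z
  rw [ch_mul, h', map_mul, Units.val_mul] at h1
  have h2 := congrArg (fun w => (X.sgn Φ : ℤ) • w) h1
  simp only [smul_smul] at h2
  rw [units_mul_self, one_smul, ← mul_assoc, units_mul_self, one_mul] at h2
  exact h2

/-- Two elements with the same action on algebraic classes, the identity on `T`. -/
theorem ok_of_same (hk : k ≠ 0) {Φ Ψ : D} (h : X.TId Φ) (h' : X.TId Ψ)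
    (e : ∀ v, X.act Φ (X.alg v) = X.act Ψ (X.alg v)) (o : X.Ok Ψ) : X.Ok Φ := by
  have h1 : X.act (Ψ⁻¹ * Φ) = 1 := by
    apply (h'.inv.mul h).act_eq_one hk
    intro v
    rw [act_mul, e, act_inv_act]
  obtain ⟨h2, h3⟩ := X.faithful _ h1
  have h4 : X.Ok (Ψ⁻¹ * Φ) := by
    intro z
    rw [h3 z, h2, Units.val_one, one_smul]
  have h5 : X.Ok (Ψ * (Ψ⁻¹ * Φ)) := o.mul h4
  rwa [mul_inv_cancel_left] at h5

theorem Rep.mul {X : EllipticK3 k a H CH Pt Base D} {Φ Ψ : D}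
    {g h g' h' : Matrix (Fin 2) (Fin 2) ℤ} (r : X.Rep Φ g h) (r' : X.Rep Ψ g' h') :
    X.Rep (Φ * Ψ) (g * g') (h' * h) := by
  refine ⟨r.1.mul r'.1, fun v => ?_⟩
  obtain ⟨w, hw, hw'⟩ := r'.2 v
  obtain ⟨u, hu, hu'⟩ := r.2 w
  refine ⟨u, by rw [act_mul, hw, hu], ?_⟩
  rw [hu', hw']
  simp only [Matrix.mul_assoc]

theorem Rep.ok (hk : k ≠ 0) {X : EllipticK3 k a H CH Pt Base D} {Φ Ψ : D}
    {g h : Matrix (Fin 2) (Fin 2) ℤ} (r : X.Rep Φ g h) (r' : X.Rep Ψ g h) (o : X.Ok Ψ) :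
    X.Ok Φ := by
  refine X.ok_of_same hk r.1 r'.1 (fun v => ?_) o
  obtain ⟨w, hw, hw'⟩ := r.2 v
  obtain ⟨u, hu, hu'⟩ := r'.2 v
  have : w = u := mat_inj hk (hw'.trans hu'.symm)
  rw [hw, hu, this]

/-- The pairs of matrices realised by elements with the expected sign. -/
def GoodM (g h : Matrix (Fin 2) (Fin 2) ℤ) : Prop := ∃ Φ, X.Rep Φ g h ∧ X.Ok Φ

theorem GoodM.mul {X : EllipticK3 k a H CH Pt Base D} {g h g' h' : Matrix (Fin 2) (Fin 2) ℤ}
    (r : X.GoodM g h) (r' : X.GoodM g' h') : X.GoodM (g * g') (h' * h) := by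
  obtain ⟨Φ, hΦ, oΦ⟩ := r
  obtain ⟨Ψ, hΨ, oΨ⟩ := r'
  exact ⟨Φ * Ψ, hΦ.mul hΨ, oΦ.mul oΨ⟩

end EllipticK3

end Pool.Agent.Lib.MP_240120_ag
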