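import Mathlib
import Pool.Agent.Lib.MP_240120_ag.Basic

set_option autoImplicit false

/-! The generators in matrix form. -/

namespace Pool.Agent.Lib.MP_240120_ag

namespace EllipticK3

variable {k a : ℤ} {H CH Pt Base D : Type*} [AddCommGroup H] [AddCommGroup CH] [Group D]
  (X : EllipticK3 k a H CH Pt Base D)

theorem ok_of_sgn_one {Φ : D} (h : X.sgn Φ = 1) (h' : ∀ z, X.ch Φ z = z) : X.Ok Φ := by
  intro z; rw [h' z, h, Units.val_one, one_smul]

/-- Line bundle twists. -/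
theorem goodM_twist (m n : ℤ) :
    X.GoodM !![1, 0; -(a * m) + k * n, 1] !![1, 0; -m, 1] := by
  obtain ⟨Φ, h1, h2, h3, h4⟩ := X.twist n (-m)
  refine ⟨Φ, ⟨h2, fun v => ⟨_, h3 v, ?_⟩⟩, X.ok_of_sgn_one h1 h4⟩
  obtain ⟨r, x, y, s⟩ := v
  ext i j
  fin_cases i <;> fin_cases j <;>
    simp [mat, expo, Matrix.mul_apply, Fin.sum_univ_two] <;> ring

/-- The reflection in `(1, 0, 1)`. -/
theorem exists_refl_zero : ∃ Φ, X.TId Φ ∧ X.Ok Φ ∧
    ∀ v, X.act Φ (X.alg v) = X.alg (refl k a (1, 0, 0, 1) v) := by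
  obtain ⟨Φ, h1, h2, h3, h4⟩ := X.spherical (1, 0, 0, 1) (by norm_num [pair])
  exact ⟨Φ, h2, X.ok_of_sgn_one h1 h4, h3⟩

/-- Products of two reflections in `(-2)`-vectors. -/
theorem goodM_refl (v11 v12 v21 v22 : ℤ) (hdet : v11 * v22 - v12 * v21 = 1)
    (hdvd : k ∣ v21 - a * v12) :
    X.GoodM !![v11, v12; v21, v22] !![v22, v21; v12, v11] := by
  obtain ⟨x, hx⟩ := hdvd
  obtain ⟨Ψ, t2, o2, h2⟩ := X.exists_refl_zero
  obtain ⟨Φ, h1, t1, h3, h4⟩ := X.spherical (v11, x, v12, v22) (by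
    simp only [pair]
    linear_combination (-2) * hdet - 2 * v12 * hx)
  refine ⟨Φ * Ψ, ⟨TId.mul (X := X) t1 t2, fun v => ⟨_, by rw [act_mul, h2, h3], ?_⟩⟩,
    (X.ok_of_sgn_one h1 h4).mul o2⟩
  obtain ⟨r, x', y, s⟩ := v
  have hx' : v21 = k * x + a * v12 := by linarith
  subst hx'
  ext i j
  fin_cases i <;> fin_cases j <;>
    simp [mat, refl, pair, Matrix.mul_apply, Fin.sum_univ_two]
  · linear_combination (-y) * hdet
  · linear_combination (s) * hdet
  · linear_combination (r) * hdet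
  · linear_combination (-(k * x' + a * y)) * hdet

/-- Shift and dual. -/
theorem goodM_dual : X.GoodM !![1, 0; 0, -1] !![1, 0; 0, -1] := by
  obtain ⟨Φ, h1, h2, h3⟩ := X.shift
  obtain ⟨Ψ, k1, k2, k3, k4⟩ := X.dual
  refine ⟨Φ * Ψ, ⟨?_, fun v => ⟨(-v.1, v.2.1, v.2.2.1, -v.2.2.2), ?_, ?_⟩⟩, ?_⟩
  · intro t ht
    rw [act_mul, k2 t ht, map_neg, h2, neg_neg]
  · rw [act_mul, k3, h2, ← map_neg]
    congr 1
    simp
  · ext i j
    fin_cases i <;> fin_cases j <;>
      simp [mat, Matrix.mul_apply, Fin.sum_univ_two]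
  · intro z
    rw [ch_mul, k4, h3, map_mul, h1, k1]
    simp

/-- Relative Fourier-Mukai transforms act as the identity on zero-cycles of degree zero. -/
theorem ch_eq_of_fib (Φ : D) (h : ∀ x y, X.fib x = X.fib y → X.ch Φ (X.cyc x y) = X.cyc x y) :
    ∀ z, X.ch Φ z = z := by
  have cyc_self : ∀ x, X.cyc x x = 0 := fun x => by
    have := X.cyc_add x x x
    simpa using this
  have key : ∀ x y, X.ch Φ (X.cyc x y) = X.cyc x y := by
    intro x y
    obtain ⟨x', hx', fx⟩ := X.horizontal x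
    obtain ⟨y', hy', fy⟩ := X.horizontal y
    have e : X.cyc x y = X.cyc x x' + X.cyc y' y := by
      rw [← X.cyc_add x x' y, ← X.cyc_add x' y' y, X.beauville_voisin x' hx' y' hy', zero_add]
    rw [e, map_add, h x x' fx.symm, h y' y fy]
  intro z
  have hz : z ∈ AddSubgroup.closure {z | ∃ x y, z = X.cyc x y} := by rw [X.generate]; trivial
  induction hz using AddSubgroup.closure_induction with
  | mem z hz => obtain ⟨x, y, rfl⟩ := hz; exact key x y
  | zero => rw [map_zero]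
  | add z w _ _ hz hw => rw [map_add, hz, hw]
  | neg z _ hz => rw [map_neg, hz]

end EllipticK3

end Pool.Agent.Lib.MP_240120_ag
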