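import Mathlib
import Pool.Agent.Lib.MP_240120_ag.Gens

set_option autoImplicit false

/-! The relative Fourier-Mukai transforms in matrix form. -/

namespace Pool.Agent.Lib.MP_240120_ag

namespace EllipticK3

variable {k a : ℤ} {H CH Pt Base D : Type*} [AddCommGroup H] [AddCommGroup CH] [Group D]
  (X : EllipticK3 k a H CH Pt Base D)

theorem vec_eq (r x y s : ℤ) : ((r, x, y, s) : Vec) =
    r • ((1, 0, 0, 0) : Vec) + x • ((0, 1, 0, 0) : Vec) + y • ((0, 0, 1, 0) : Vec)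
      + s • ((0, 0, 0, 1) : Vec) := by
  simp

/-- The action on all algebraic classes from the one on the basis. -/
theorem act_of_basis {Φ : D} {w1 w2 w3 w4 : Vec} (h1 : X.act Φ (X.alg (1, 0, 0, 0)) = X.alg w1)
    (h2 : X.act Φ (X.alg (0, 1, 0, 0)) = X.alg w2) (h3 : X.act Φ (X.alg (0, 0, 1, 0)) = X.alg w3)
    (h4 : X.act Φ (X.alg (0, 0, 0, 1)) = X.alg w4) (r x y s : ℤ) :
    X.act Φ (X.alg (r, x, y, s)) = X.alg (r • w1 + x • w2 + y • w3 + s • w4) := by
  rw [vec_eq]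
  simp only [map_add, map_zsmul, h1, h2, h3, h4]

theorem pair_of_act {Φ : D} {v w v' w' : Vec} (h : X.act Φ (X.alg v) = X.alg w)
    (h' : X.act Φ (X.alg v') = X.alg w') : pair k a w w' = pair k a v v' := by
  rw [← X.pair_alg, ← h, ← h', X.isometry, X.pair_alg]

private theorem relative_arith (hk : k ≠ 0) (p q r s x1 s1 x2 s2 x3 s3 x4 s4 : ℤ)
    (hdet : p * s - q * r = 1)
    (p11 : pair k a (s, x1, r, s1) (s, x1, r, s1) = 0)
    (p13 : pair k a (s, x1, r, s1) (q, x3, p, s3) = 0)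
    (p33 : pair k a (q, x3, p, s3) (q, x3, p, s3) = 2 * a)
    (p21 : pair k a (0, x2, 0, s2) (s, x1, r, s1) = 0)
    (p23 : pair k a (0, x2, 0, s2) (q, x3, p, s3) = k)
    (p41 : pair k a (0, x4, 0, s4) (s, x1, r, s1) = -1)
    (p43 : pair k a (0, x4, 0, s4) (q, x3, p, s3) = 0) :
    k * x4 = q ∧ s4 = p ∧ x2 = s ∧ s2 = k * r ∧
      ∃ N, N = p * (k * x1 + a * r) - q * s1 ∧ k * x1 + a * r = N * s ∧ s1 = N * r ∧
        k * x3 + a * p = a * s + N * q ∧ s3 = a * r + N * p := by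
  simp only [pair, mul_zero, add_zero, zero_add, zero_mul, sub_zero] at p11 p13 p33 p21 p23 p41 p43
  have n1 : r * (k * x1 + a * r) = s * s1 := by linarith
  have n3 : p * (k * x3 + a * p) - q * s3 = a := by linarith
  refine ⟨?_, ?_, ?_, ?_, p * (k * x1 + a * r) - q * s1, rfl, ?_, ?_, ?_, ?_⟩
  · linear_combination (-k * x4) * hdet + s * p43 - q * p41
  · linear_combination (-s4) * hdet + r * p43 - p * p41
  · apply mul_left_cancel₀ hk
    linear_combination (-k * x2) * hdet + s * p23 - q * p21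
  · linear_combination (-s2) * hdet + r * p23 - p * p21
  · linear_combination (-(k * x1 + a * r)) * hdet - q * n1
  · linear_combination (-s1) * hdet - p * n1
  · linear_combination (-(k * x3 + a * p)) * hdet + s * n3 - q * p13
  · linear_combination (-s3) * hdet + r * n3 - p * p13

theorem goodM_relative (hk : k ≠ 0) (p q r s : ℤ) (hdet : p * s - q * r = 1) (hq : k ∣ q)
    (hs : k ∣ s - 1) (har : k ∣ a * r) : X.GoodM 1 !![p, q; r, s] := by
  obtain ⟨q', hq'⟩ := hq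
  obtain ⟨s', hs'⟩ := hs
  have hp : k ∣ p - 1 := ⟨q' * r - p * s', by
    have : p - 1 = q * r - p * (s - 1) := by linear_combination hdet
    rw [this, hq', hs']; ring⟩
  obtain ⟨Φ, h1, t1, h2, h3⟩ := X.relative p s r q'
    (by rw [hq'] at hdet; linear_combination hdet) hp
  have oΦ : X.Ok Φ := X.ok_of_sgn_one h1 (X.ch_eq_of_fib Φ h3)
  have tΦ : X.TId Φ := t1
  obtain ⟨w1, e1⟩ := tΦ.exists_alg (1, 0, 0, 0)
  obtain ⟨w2, e2⟩ := tΦ.exists_alg (0, 1, 0, 0)
  obtain ⟨w3, e3⟩ := tΦ.exists_alg (0, 0, 1, 0)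
  obtain ⟨w4, e4⟩ := tΦ.exists_alg (0, 0, 0, 1)
  have a1 := h2 _ _ e1
  have a2 := h2 _ _ e2
  have a3 := h2 _ _ e3
  have a4 := h2 _ _ e4
  have p11 := X.pair_of_act e1 e1
  have p13 := X.pair_of_act e1 e3
  have p33 := X.pair_of_act e3 e3
  have p21 := X.pair_of_act e2 e1
  have p23 := X.pair_of_act e2 e3
  have p41 := X.pair_of_act e4 e1
  have p43 := X.pair_of_act e4 e3
  obtain ⟨r1, x1, y1, s1⟩ := w1
  obtain ⟨r2, x2, y2, s2⟩ := w2
  obtain ⟨r3, x3, y3, s3⟩ := w3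
  obtain ⟨r4, x4, y4, s4⟩ := w4
  simp only [mul_one, mul_zero, add_zero, zero_add] at a1 a2 a3 a4
  obtain ⟨a1, b1⟩ := a1
  obtain ⟨a2, b2⟩ := a2
  obtain ⟨a3, b3⟩ := a3
  obtain ⟨a4, b4⟩ := a4
  have b1 : y1 = r := mul_left_cancel₀ hk b1
  have b2 : y2 = 0 := by
    rcases mul_eq_zero.mp b2 with h | h
    · exact absurd h hk
    · exact h
  have b3 : y3 = p := mul_left_cancel₀ hk (by rw [b3]; ring)
  have b4 : y4 = 0 := by
    rcases mul_eq_zero.mp b4 with h | h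
    · exact absurd h hk
    · exact h
  have a3 : r3 = q := by rw [a3, hq']; ring
  rw [a1, b1] at e1 p11 p13 p21 p41
  rw [a2, b2] at e2 p21 p23
  rw [a3, b3] at e3 p33 p13 p23 p43
  rw [a4, b4] at e4 p41 p43
  obtain ⟨c1, c2, c3, c4, N, -, c5, c6, c7, c8⟩ := relative_arith hk p q r s x1 s1 x2 s2 x3 s3
    x4 s4 hdet (by rw [p11]; simp [pair]) (by rw [p13]; simp [pair]) (by rw [p33]; simp [pair])
    (by rw [p21]; simp [pair]) (by rw [p23]; simp [pair]) (by rw [p41]; simp [pair])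
    (by rw [p43]; simp [pair])
  obtain ⟨t, ht⟩ : k ∣ N := by
    obtain ⟨u, hu⟩ := har
    refine ⟨x1 + u - N * s', ?_⟩
    linear_combination -c5 + hu - N * hs'
  have rep : X.Rep Φ !![1, 0; k * t, 1] !![p, q; r, s] := by
    refine ⟨tΦ, fun v => ?_⟩
    obtain ⟨v1, v2, v3, v4⟩ := v
    refine ⟨_, X.act_of_basis e1 e2 e3 e4 v1 v2 v3 v4, ?_⟩
    rw [← ht]
    ext i j
    fin_cases i <;> fin_cases j <;>
      simp [mat, Matrix.mul_apply, Fin.sum_univ_two]
    · ring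
    · ring
    · rw [c2, c4, c6, c8]; ring
    · linear_combination v1 * c5 + k * v2 * c3 + v3 * c7 + v4 * c1
  have g := (X.goodM_twist 0 (-t)).mul ⟨Φ, rep, oΦ⟩
  have e : (!![1, 0; -(a * 0) + k * (-t), 1] * !![1, 0; k * t, 1] : Matrix (Fin 2) (Fin 2) ℤ) = 1 := by
    ext i j
    fin_cases i <;> fin_cases j <;> simp [Matrix.mul_apply, Fin.sum_univ_two]
  have e' : (!![p, q; r, s] * !![1, 0; -0, 1] : Matrix (Fin 2) (Fin 2) ℤ) = !![p, q; r, s] := by
    ext i j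
    fin_cases i <;> fin_cases j <;> simp [Matrix.mul_apply, Fin.sum_univ_two]
  rwa [e, e'] at g

end EllipticK3

end Pool.Agent.Lib.MP_240120_ag
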