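import Mathlib
import Pool.Agent.Lib.MP_240120_ag.Relative

set_option autoImplicit false

/-! Factorisation of the pairs of matrices satisfying the congruences. -/

namespace Pool.Agent.Lib.MP_240120_ag

theorem exists_coprime_add (q s k : ℤ) (hk : k ≠ 0) (h : IsCoprime q s) :
    ∃ m : ℤ, IsCoprime (s + m * q) k := by
  classical
  let ps : Finset ℕ := {p ∈ k.natAbs.primeFactors | ¬ (p : ℤ) ∣ s}
  refine ⟨((ps.prod id : ℕ) : ℤ), ?_⟩
  rw [Int.isCoprime_iff_gcd_eq_one, Int.gcd_eq_natAbs]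
  apply Nat.coprime_of_dvd
  intro p pp hp hpk
  have hp' : (p : ℤ) ∣ s + ((ps.prod id : ℕ) : ℤ) * q := Int.natCast_dvd.mpr hp
  by_cases hps : (p : ℤ) ∣ s
  · have h1 : (p : ℤ) ∣ ((ps.prod id : ℕ) : ℤ) * q := (dvd_add_right hps).mp hp'
    rcases (Nat.prime_iff_prime_int.mp pp).dvd_or_dvd h1 with h2 | h2
    · have h3 : p ∣ ps.prod id := Int.natCast_dvd_natCast.mp h2
      obtain ⟨r, hr, hr'⟩ := (pp.prime.dvd_finsetProd_iff id).mp h3
      rw [Finset.mem_filter, Nat.mem_primeFactors,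
        ← (Nat.prime_dvd_prime_iff_eq pp hr.1.1).mp hr'] at hr
      exact hr.2 hps
    · have h3 : IsUnit (p : ℤ) := h.isUnit_of_dvd' h2 hps
      exact (Nat.prime_iff_prime_int.mp pp).not_unit h3
  · have h1 : p ∈ ps := Finset.mem_filter.mpr ⟨Nat.mem_primeFactors.mpr
      ⟨pp, hpk, Int.natAbs_ne_zero.mpr hk⟩, hps⟩
    have h2 : (p : ℤ) ∣ ((ps.prod id : ℕ) : ℤ) :=
      Int.natCast_dvd_natCast.mpr (Finset.dvd_prod_of_mem id h1)
    exact hps ((dvd_add_left (h2.mul_right q)).mp hp')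

namespace EllipticK3

variable {k a : ℤ} {H CH Pt Base D : Type*} [AddCommGroup H] [AddCommGroup CH] [Group D]
  (X : EllipticK3 k a H CH Pt Base D)

/-- The case `v21 ≡ a v12`. -/
theorem goodM_of_sym (hk : k ≠ 0) (v11 v12 v21 v22 p q r s : ℤ) (hv : v11 * v22 - v12 * v21 = 1)
    (hh : p * s - q * r = 1) (h1 : k ∣ s - v11) (h2 : k ∣ q - a * v12) (h3 : k ∣ v21 - a * r)
    (h4 : k ∣ a * v22 - a * p) (h5 : k ∣ v21 - a * v12) :
    X.GoodM !![v11, v12; v21, v22] !![p, q; r, s] := by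
  obtain ⟨c1, h1⟩ := h1
  obtain ⟨c2, h2⟩ := h2
  obtain ⟨c3, h3⟩ := h3
  obtain ⟨c4, h4⟩ := h4
  obtain ⟨c5, h5'⟩ := h5
  have e : (!![v22, v21; v12, v11] * !![v11 * p - v21 * r, v11 * q - v21 * s;
      -v12 * p + v22 * r, -v12 * q + v22 * s] : Matrix (Fin 2) (Fin 2) ℤ) = !![p, q; r, s] := by
    ext i j
    fin_cases i <;> fin_cases j <;> simp [Matrix.mul_apply, Fin.sum_univ_two]
    · linear_combination p * hv
    · linear_combination q * hv
    · linear_combination r * hv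
    · linear_combination s * hv
  have g := (X.goodM_relative hk (v11 * p - v21 * r) (v11 * q - v21 * s) (-v12 * p + v22 * r)
    (-v12 * q + v22 * s) (by linear_combination (v11 * v22 - v12 * v21) * hh + hv)
    ⟨v11 * (c2 - c5) - v21 * c1, by
      linear_combination v11 * h2 - v11 * h5' - v21 * h1⟩
    ⟨-v12 * (c2 - c5) + v22 * c1, by
      linear_combination hv - v12 * h2 + v12 * h5' + v22 * h1⟩
    ⟨v12 * c4 + v22 * (c5 - c3), by
      linear_combination v12 * h4 + v22 * h5' - v22 * h3⟩).mul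
    (X.goodM_refl v11 v12 v21 v22 hv ⟨c5, h5'⟩)
  rwa [one_mul, e] at g

/-- The general case. -/
theorem goodM_of_congr (hk : k ≠ 0) (g11 g12 g21 g22 p q r s : ℤ)
    (hg : g11 * g22 - g12 * g21 = 1) (hh : p * s - q * r = 1) (h1 : k ∣ s - g11)
    (h2 : k ∣ q - a * g12) (h3 : k ∣ g21 - a * r) (h4 : k ∣ a * g22 - a * p) :
    X.GoodM !![g11, g12; g21, g22] !![p, q; r, s] := by
  obtain ⟨c1, h1⟩ := h1
  obtain ⟨c2, h2⟩ := h2
  obtain ⟨c3, h3⟩ := h3
  obtain ⟨c4, h4⟩ := h4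
  obtain ⟨m, u, w, hm⟩ := exists_coprime_add q s k hk ⟨-r, p, by linear_combination hh⟩
  -- `u (s + m q) + w k = 1`
  let m1 : ℤ := u * (g12 - (r + m * p))
  have key := X.goodM_of_sym hk (g11 + a * m * g12) g12
    (g21 + a * m * g22 + a * m1 * (g11 + a * m * g12)) (g22 + a * m1 * g12)
    (p + m1 * q) q (r + m * p + m1 * (s + m * q)) (s + m * q)
    (by linear_combination hg) (by linear_combination hh)
    ⟨c1 + m * c2, by linear_combination h1 + m * h2⟩
    ⟨c2, by linear_combination h2⟩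
    ⟨c3 + m * c4 - a * m1 * (c1 + m * c2), by
      linear_combination h3 + m * h4 - a * m1 * (h1 + m * h2)⟩
    ⟨c4 - a * m1 * c2, by linear_combination h4 - a * m1 * h2⟩
    ⟨c3 + m * c4 - a * m1 * (c1 + m * c2) - a * w * (g12 - (r + m * p)), by
      simp only [m1]
      linear_combination h3 + m * h4 - a * m1 * (h1 + m * h2) + a * (g12 - (r + m * p)) * hm⟩
  have g := ((X.goodM_twist m1 0).mul key).mul (X.goodM_twist m 0)
  have e : (!![1, 0; -(a * m1) + k * 0, 1] * !![g11 + a * m * g12, g12;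
      g21 + a * m * g22 + a * m1 * (g11 + a * m * g12), g22 + a * m1 * g12] *
      !![1, 0; -(a * m) + k * 0, 1] : Matrix (Fin 2) (Fin 2) ℤ) = !![g11, g12; g21, g22] := by
    ext i j
    fin_cases i <;> fin_cases j <;> simp [Matrix.mul_apply, Fin.sum_univ_two] <;> ring
  have e' : (!![1, 0; -m, 1] * (!![p + m1 * q, q; r + m * p + m1 * (s + m * q), s + m * q] *
      !![1, 0; -m1, 1]) : Matrix (Fin 2) (Fin 2) ℤ) = !![p, q; r, s] := by
    ext i j
    fin_cases i <;> fin_cases j <;> simp [Matrix.mul_apply, Fin.sum_univ_two] <;> ring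
  rwa [e, e'] at g

end EllipticK3

end Pool.Agent.Lib.MP_240120_ag
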