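import Mathlib
import Pool.Agent.Lib.MP_240120_ag.Factor

set_option autoImplicit false

/-! The main theorem. -/

namespace Pool.Agent.Lib.MP_240120_ag

theorem rank_one (q1 q2 q3 q4 : ℤ) (h : q1 * q4 = q2 * q3) :
    ∃ u1 u2 w1 w2 : ℤ, q1 = u1 * w1 ∧ q2 = u1 * w2 ∧ q3 = u2 * w1 ∧ q4 = u2 * w2 := by
  by_cases h1 : q1 = 0
  · subst h1
    rw [zero_mul] at h
    rcases mul_eq_zero.mp h.symm with h2 | h2
    · exact ⟨0, 1, q3, q4, by simp, by simp [h2], by simp, by simp⟩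
    · exact ⟨q2, q4, 0, 1, by simp, by simp, by simp [h2], by simp⟩
  · obtain ⟨u1, w1, ⟨w2, hw2⟩, ⟨u2, hu2⟩, e⟩ := exists_dvd_and_dvd_of_dvd_mul (Dvd.intro q4 h)
    refine ⟨u1, u2, w1, w2, e, hw2, by rw [hu2, mul_comm], ?_⟩
    apply mul_left_cancel₀ h1
    rw [h, hw2, hu2, e]; ring

/-- Integral isotropic bases of the lattice of matrices. -/
theorem decompose (q1 q2 q3 q4 r1 r2 r3 r4 s1 s2 s3 s4 p1 p2 p3 p4 : ℤ)
    (qq : q1 * q4 - q2 * q3 = 0) (pp : p1 * p4 - p2 * p3 = 0) (rr : r1 * r4 - r2 * r3 = 0)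
    (ss : s1 * s4 - s2 * s3 = 0)
    (qp : q1 * p4 + q4 * p1 - q2 * p3 - q3 * p2 = 1)
    (rs : r1 * s4 + r4 * s1 - r2 * s3 - r3 * s2 = -1)
    (qr : q1 * r4 + q4 * r1 - q2 * r3 - q3 * r2 = 0)
    (qs : q1 * s4 + q4 * s1 - q2 * s3 - q3 * s2 = 0)
    (pr : p1 * r4 + p4 * r1 - p2 * r3 - p3 * r2 = 0)
    (ps : p1 * s4 + p4 * s1 - p2 * s3 - p3 * s2 = 0) :
    ∃ g11 g12 g21 g22 p q r s : ℤ,
      ((g11 * g22 - g12 * g21 = 1 ∧ p * s - q * r = 1) ∨
        (g11 * g22 - g12 * g21 = -1 ∧ p * s - q * r = -1)) ∧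
      (r1 = g11 * r ∧ r2 = g11 * s ∧ r3 = g21 * r ∧ r4 = g21 * s) ∧
      (s1 = g12 * p ∧ s2 = g12 * q ∧ s3 = g22 * p ∧ s4 = g22 * q) ∧
      (((q1 = g11 * p ∧ q2 = g11 * q ∧ q3 = g21 * p ∧ q4 = g21 * q) ∧
        (p1 = g12 * r ∧ p2 = g12 * s ∧ p3 = g22 * r ∧ p4 = g22 * s)) ∨
       ((p1 = g11 * p ∧ p2 = g11 * q ∧ p3 = g21 * p ∧ p4 = g21 * q) ∧
        (q1 = g12 * r ∧ q2 = g12 * s ∧ q3 = g22 * r ∧ q4 = g22 * s))) := by
  obtain ⟨u1, u2, w1, w2, rfl, rfl, rfl, rfl⟩ := rank_one q1 q2 q3 q4 (by linarith)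
  obtain ⟨v1, v2, x1, x2, rfl, rfl, rfl, rfl⟩ := rank_one p1 p2 p3 p4 (by linarith)
  have hd : (u1 * v2 - u2 * v1) * (w1 * x2 - w2 * x1) = 1 := by linear_combination qp
  -- coefficients of `R`, `S` with respect to `u x^T` and `v w^T`
  obtain ⟨b, hb⟩ : ∃ b, b = -(r1 * (v2 * w2) + r4 * (v1 * w1) - r2 * (v2 * w1) - r3 * (v1 * w2)) :=
    ⟨_, rfl⟩
  obtain ⟨c, hc⟩ : ∃ c, c = -(r1 * (u2 * x2) + r4 * (u1 * x1) - r2 * (u2 * x1) - r3 * (u1 * x2)) :=
    ⟨_, rfl⟩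
  obtain ⟨b', hb'⟩ : ∃ b, b = -(s1 * (v2 * w2) + s4 * (v1 * w1) - s2 * (v2 * w1) - s3 * (v1 * w2)) :=
    ⟨_, rfl⟩
  obtain ⟨c', hc'⟩ : ∃ c, c = -(s1 * (u2 * x2) + s4 * (u1 * x1) - s2 * (u2 * x1) - s3 * (u1 * x2)) :=
    ⟨_, rfl⟩
  have R1 : r1 = b * (u1 * x1) + c * (v1 * w1) := by
    rw [hb, hc]; linear_combination (-r1) * hd + (u1 * w1) * pr + (v1 * x1) * qr
  have R2 : r2 = b * (u1 * x2) + c * (v1 * w2) := by
    rw [hb, hc]; linear_combination (-r2) * hd + (u1 * w2) * pr + (v1 * x2) * qr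
  have R3 : r3 = b * (u2 * x1) + c * (v2 * w1) := by
    rw [hb, hc]; linear_combination (-r3) * hd + (u2 * w1) * pr + (v2 * x1) * qr
  have R4 : r4 = b * (u2 * x2) + c * (v2 * w2) := by
    rw [hb, hc]; linear_combination (-r4) * hd + (u2 * w2) * pr + (v2 * x2) * qr
  have S1 : s1 = b' * (u1 * x1) + c' * (v1 * w1) := by
    rw [hb', hc']; linear_combination (-s1) * hd + (u1 * w1) * ps + (v1 * x1) * qs
  have S2 : s2 = b' * (u1 * x2) + c' * (v1 * w2) := by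
    rw [hb', hc']; linear_combination (-s2) * hd + (u1 * w2) * ps + (v1 * x2) * qs
  have S3 : s3 = b' * (u2 * x1) + c' * (v2 * w1) := by
    rw [hb', hc']; linear_combination (-s3) * hd + (u2 * w1) * ps + (v2 * x1) * qs
  have S4 : s4 = b' * (u2 * x2) + c' * (v2 * w2) := by
    rw [hb', hc']; linear_combination (-s4) * hd + (u2 * w2) * ps + (v2 * x2) * qs
  clear hb hc hb' hc' qr pr qs ps
  have bc : b * c = 0 := by
    rw [R1, R2, R3, R4] at rr
    linear_combination (-1) * rr - b * c * hd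
  have bc' : b' * c' = 0 := by
    rw [S1, S2, S3, S4] at ss
    linear_combination (-1) * ss - b' * c' * hd
  have bb : b * c' + c * b' = 1 := by
    rw [R1, R2, R3, R4, S1, S2, S3, S4] at rs
    linear_combination (-1) * rs - (b * c' + c * b') * hd
  have hdd : (u1 * v2 - u2 * v1 = 1 ∧ w1 * x2 - w2 * x1 = 1) ∨
      (u1 * v2 - u2 * v1 = -1 ∧ w1 * x2 - w2 * x1 = -1) := Int.mul_eq_one_iff_eq_one_or_neg_one.mp hd
  rcases mul_eq_zero.mp bc with h0 | h0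
  · -- `b = 0`
    subst h0
    rw [zero_mul, zero_add] at bb
    have hb' : b' ≠ 0 := by rintro rfl; rw [mul_zero] at bb; exact zero_ne_one bb
    have hc' : c' = 0 := by
      rcases mul_eq_zero.mp bc' with h | h
      · exact absurd h hb'
      · exact h
    subst hc'
    rcases Int.mul_eq_one_iff_eq_one_or_neg_one.mp bb with ⟨rfl, rfl⟩ | ⟨rfl, rfl⟩
    · refine ⟨v1, u1, v2, u2, x1, x2, w1, w2, ?_, ?_, ?_, Or.inr ⟨?_, ?_⟩⟩
      · rcases hdd with ⟨h1, h2⟩ | ⟨h1, h2⟩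
        · right; constructor
          · linear_combination (-1) * h1
          · linear_combination (-1) * h2
        · left; constructor
          · linear_combination (-1) * h1
          · linear_combination (-1) * h2
      · rw [R1, R2, R3, R4]; refine ⟨?_, ?_, ?_, ?_⟩ <;> ring
      · rw [S1, S2, S3, S4]; refine ⟨?_, ?_, ?_, ?_⟩ <;> ring
      · refine ⟨?_, ?_, ?_, ?_⟩ <;> ring
      · refine ⟨?_, ?_, ?_, ?_⟩ <;> ring
    · refine ⟨v1, -u1, v2, -u2, x1, x2, -w1, -w2, ?_, ?_, ?_, Or.inr ⟨?_, ?_⟩⟩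
      · rcases hdd with ⟨h1, h2⟩ | ⟨h1, h2⟩
        · left; constructor
          · linear_combination h1
          · linear_combination h2
        · right; constructor
          · linear_combination h1
          · linear_combination h2
      · rw [R1, R2, R3, R4]; refine ⟨?_, ?_, ?_, ?_⟩ <;> ring
      · rw [S1, S2, S3, S4]; refine ⟨?_, ?_, ?_, ?_⟩ <;> ring
      · refine ⟨?_, ?_, ?_, ?_⟩ <;> ring
      · refine ⟨?_, ?_, ?_, ?_⟩ <;> ring
  · subst h0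
    rw [zero_mul, add_zero] at bb
    have hc' : c' ≠ 0 := by rintro rfl; rw [mul_zero] at bb; exact zero_ne_one bb
    have hb' : b' = 0 := by
      rcases mul_eq_zero.mp bc' with h | h
      · exact h
      · exact absurd h hc'
    subst hb'
    rcases Int.mul_eq_one_iff_eq_one_or_neg_one.mp bb with ⟨rfl, rfl⟩ | ⟨rfl, rfl⟩
    · refine ⟨u1, v1, u2, v2, w1, w2, x1, x2, ?_, ?_, ?_, Or.inl ⟨?_, ?_⟩⟩
      · rcases hdd with ⟨h1, h2⟩ | ⟨h1, h2⟩
        · left; constructor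
          · linear_combination h1
          · linear_combination h2
        · right; constructor
          · linear_combination h1
          · linear_combination h2
      · rw [R1, R2, R3, R4]; refine ⟨?_, ?_, ?_, ?_⟩ <;> ring
      · rw [S1, S2, S3, S4]; refine ⟨?_, ?_, ?_, ?_⟩ <;> ring
      · refine ⟨?_, ?_, ?_, ?_⟩ <;> ring
      · refine ⟨?_, ?_, ?_, ?_⟩ <;> ring
    · refine ⟨u1, -v1, u2, -v2, w1, w2, -x1, -x2, ?_, ?_, ?_, Or.inl ⟨?_, ?_⟩⟩
      · rcases hdd with ⟨h1, h2⟩ | ⟨h1, h2⟩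
        · right; constructor
          · linear_combination (-1) * h1
          · linear_combination (-1) * h2
        · left; constructor
          · linear_combination (-1) * h1
          · linear_combination (-1) * h2
      · rw [R1, R2, R3, R4]; refine ⟨?_, ?_, ?_, ?_⟩ <;> ring
      · rw [S1, S2, S3, S4]; refine ⟨?_, ?_, ?_, ?_⟩ <;> ring
      · refine ⟨?_, ?_, ?_, ?_⟩ <;> ring
      · refine ⟨?_, ?_, ?_, ?_⟩ <;> ring

end Pool.Agent.Lib.MP_240120_ag
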