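import Mathlib
import Pool.Agent.Lib.MP_240120_ag.Main

set_option autoImplicit false

/-! The main theorem. -/

namespace Pool.Agent.Lib.MP_240120_ag

namespace EllipticK3

variable {k a : ℤ} {H CH Pt Base D : Type*} [AddCommGroup H] [AddCommGroup CH] [Group D]
  {X : EllipticK3 k a H CH Pt Base D}

/-- An element acting as the identity on `T` acts as the identity on the discriminant. -/
theorem TId.disc {Φ : D} (h : X.TId Φ) (l : Vec →+ ℤ) :
    ∃ m : Vec, ∀ v w : Vec, X.act Φ (X.alg v) = X.alg w → pair k a m w = l v - l w := by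
  obtain ⟨y, hy⟩ := X.unimodular l
  obtain ⟨m, hm⟩ := h.sub_alg y
  refine ⟨m, fun v w e => ?_⟩
  rw [← X.pair_alg, ← hm, map_sub, AddMonoidHom.sub_apply, hy, ← e, X.isometry, hy]

theorem TId.surj {Φ : D} (h : X.TId Φ) (u : Vec) : ∃ n : Vec, X.act Φ (X.alg n) = X.alg u := by
  obtain ⟨n, hn⟩ := h.inv.exists_alg u
  exact ⟨n, by rw [← hn, act_act_inv]⟩

theorem TId.image_f (hk : k ≠ 0) {Φ : D} (h : X.TId Φ) {my w2 : Vec}
    (hmy : ∀ v w : Vec, X.act Φ (X.alg v) = X.alg w → pair k a my w = v.2.2.1 - w.2.2.1)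
    (e2 : X.act Φ (X.alg (0, 1, 0, 0)) = X.alg w2) : w2 = (0, 1, 0, 0) + k • my := by
  rw [← sub_eq_zero]
  apply pair_nondeg (a := a) hk
  intro u
  obtain ⟨n, hn⟩ := h.surj u
  have h1 := hmy n u hn
  have h2 := X.pair_of_act e2 hn
  obtain ⟨a1, a2, a3, a4⟩ := u
  obtain ⟨b1, b2, b3, b4⟩ := n
  obtain ⟨c1, c2, c3, c4⟩ := my
  obtain ⟨d1, d2, d3, d4⟩ := w2
  simp [pair] at h1 h2 ⊢
  linear_combination h2 - k * h1

theorem TId.image_h (hk : k ≠ 0) {Φ : D} (h : X.TId Φ) {mx my w3 : Vec}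
    (hmx : ∀ v w : Vec, X.act Φ (X.alg v) = X.alg w → pair k a mx w = v.2.1 - w.2.1)
    (hmy : ∀ v w : Vec, X.act Φ (X.alg v) = X.alg w → pair k a my w = v.2.2.1 - w.2.2.1)
    (e3 : X.act Φ (X.alg (0, 0, 1, 0)) = X.alg w3) :
    w3 = (0, 0, 1, 0) + k • mx + (2 * a) • my := by
  rw [← sub_eq_zero]
  apply pair_nondeg (a := a) hk
  intro u
  obtain ⟨n, hn⟩ := h.surj u
  have h0 := hmx n u hn
  have h1 := hmy n u hn
  have h2 := X.pair_of_act e3 hn
  obtain ⟨a1, a2, a3, a4⟩ := u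
  obtain ⟨b1, b2, b3, b4⟩ := n
  obtain ⟨c1, c2, c3, c4⟩ := my
  obtain ⟨f1, f2, f3, f4⟩ := mx
  obtain ⟨d1, d2, d3, d4⟩ := w3
  simp [pair] at h0 h1 h2 ⊢
  linear_combination h2 - k * h0 - 2 * a * h1

/-- Elements acting by `A ↦ g A h` with determinants one. -/
theorem Rep.ok_of_det (hk : k ≠ 0) {Φ : D} {g11 g12 g21 g22 p q r s : ℤ}
    (rep : X.Rep Φ !![g11, g12; g21, g22] !![p, q; r, s])
    (hg : g11 * g22 - g12 * g21 = 1) (hh : p * s - q * r = 1) : X.Ok Φ := by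
  have tΦ := rep.1
  obtain ⟨mx, hmx⟩ := tΦ.disc (AddMonoidHom.mk' (fun v : Vec => v.2.1) (fun _ _ => rfl))
  obtain ⟨my, hmy⟩ := tΦ.disc (AddMonoidHom.mk' (fun v : Vec => v.2.2.1) (fun _ _ => rfl))
  simp only [AddMonoidHom.mk'_apply] at hmx hmy
  obtain ⟨w2, e2, m2⟩ := rep.2 (0, 1, 0, 0)
  obtain ⟨w3, e3, m3⟩ := rep.2 (0, 0, 1, 0)
  have i2 := tΦ.image_f hk hmy e2
  have i3 := tΦ.image_h hk hmx hmy e3
  obtain ⟨mx1, mx2, mx3, mx4⟩ := mx
  obtain ⟨my1, my2, my3, my4⟩ := my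
  subst i2 i3
  have f00 := congrFun (congrFun m2 0) 0
  have f01 := congrFun (congrFun m2 0) 1
  have f10 := congrFun (congrFun m2 1) 0
  have f11 := congrFun (congrFun m2 1) 1
  have h00 := congrFun (congrFun m3 0) 0
  have h01 := congrFun (congrFun m3 0) 1
  have h10 := congrFun (congrFun m3 1) 0
  have h11 := congrFun (congrFun m3 1) 1
  simp [mat, Matrix.mul_apply, Fin.sum_univ_two] at f00 f01 f10 f11 h00 h01 h10 h11
  -- the entries of `g E₂₂ h`
  have F00 : my3 = g12 * r := mul_left_cancel₀ hk (by linear_combination f00)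
  have F01 : my1 = g12 * s := mul_left_cancel₀ hk (by linear_combination f01)
  have F10 : my4 = g22 * r := mul_left_cancel₀ hk (by linear_combination f10)
  have F11 : 1 + k * my2 + a * my3 = g22 * s := mul_left_cancel₀ hk (by linear_combination f11)
  -- the entries of `g (E₁₁ - a E₂₂) h`
  have H00 : g11 * p - a * (g12 * r) = 1 + k * mx3 := by linear_combination (-1) * h00 + 2 * a * F00
  have H01 : g11 * q - a * (g12 * s) = k * mx1 := by linear_combination (-1) * h01 + 2 * a * F01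
  have H10 : g21 * p - a * (g22 * r) = k * mx4 := by linear_combination (-1) * h10 + 2 * a * F10
  have H11 : g21 * q - a * (g22 * s) = -a + k * (k * mx2 + a * mx3) := by
    linear_combination (-1) * h11 + 2 * a * F11
  obtain ⟨Ψ, rΨ, oΨ⟩ := X.goodM_of_congr hk g11 g12 g21 g22 p q r s hg hh
    ⟨-(mx3 * s - mx1 * r), by linear_combination g11 * hh - s * H00 + r * H01⟩
    ⟨p * mx1 - q * mx3, by linear_combination (a * g12) * hh - q * H00 + p * H01⟩
    ⟨mx4 * s - (k * mx2 + a * mx3) * r, by linear_combination (-g21) * hh + s * H10 - r * H11⟩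
    ⟨mx4 * q - (k * mx2 + a * mx3) * p, by
      linear_combination (-(a * g22)) * hh + q * H10 - p * H11⟩
  exact rep.ok hk rΨ oΨ

/-- Elements acting by `A ↦ g A h` with equal determinants `1` or `-1`. -/
theorem Rep.ok_of_dets (hk : k ≠ 0) {Φ : D} {g11 g12 g21 g22 p q r s : ℤ}
    (rep : X.Rep Φ !![g11, g12; g21, g22] !![p, q; r, s])
    (h : (g11 * g22 - g12 * g21 = 1 ∧ p * s - q * r = 1) ∨
      (g11 * g22 - g12 * g21 = -1 ∧ p * s - q * r = -1)) : X.Ok Φ := by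
  rcases h with ⟨hg, hh⟩ | ⟨hg, hh⟩
  · exact rep.ok_of_det hk hg hh
  · obtain ⟨Ψ, rΨ, oΨ⟩ := X.goodM_dual
    have r' := rep.mul rΨ
    have e1 : (!![g11, g12; g21, g22] * !![1, 0; 0, -1] : Matrix (Fin 2) (Fin 2) ℤ) =
        !![g11, -g12; g21, -g22] := by
      ext i j
      fin_cases i <;> fin_cases j <;> simp [Matrix.mul_apply, Fin.sum_univ_two]
    have e2 : (!![1, 0; 0, -1] * !![p, q; r, s] : Matrix (Fin 2) (Fin 2) ℤ) =
        !![p, q; -r, -s] := by
      ext i j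
      fin_cases i <;> fin_cases j <;> simp [Matrix.mul_apply, Fin.sum_univ_two]
    rw [e1, e2] at r'
    have := r'.ok_of_det hk (by linear_combination (-1) * hg) (by linear_combination (-1) * hh)
    exact this.cancel oΨ

/-- Elements acting as the identity on `T`. -/
theorem TId.ok (hk : k ≠ 0) {Φ : D} (tΦ : X.TId Φ) : X.Ok Φ := by
  obtain ⟨mx, hmx⟩ := tΦ.disc (AddMonoidHom.mk' (fun v : Vec => v.2.1) (fun _ _ => rfl))
  obtain ⟨my, hmy⟩ := tΦ.disc (AddMonoidHom.mk' (fun v : Vec => v.2.2.1) (fun _ _ => rfl))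
  simp only [AddMonoidHom.mk'_apply] at hmx hmy
  obtain ⟨w1, e1⟩ := tΦ.exists_alg (1, 0, 0, 0)
  obtain ⟨w2, e2⟩ := tΦ.exists_alg (0, 1, 0, 0)
  obtain ⟨w3, e3⟩ := tΦ.exists_alg (0, 0, 1, 0)
  obtain ⟨w4, e4⟩ := tΦ.exists_alg (0, 0, 0, 1)
  have i2 := tΦ.image_f hk hmy e2
  have i3 := tΦ.image_h hk hmx hmy e3
  subst i2 i3
  have q11 := X.pair_of_act e1 e1
  have q12 := X.pair_of_act e1 e2
  have q13 := X.pair_of_act e1 e3
  have q14 := X.pair_of_act e1 e4
  have q22 := X.pair_of_act e2 e2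
  have q23 := X.pair_of_act e2 e3
  have q24 := X.pair_of_act e2 e4
  have q33 := X.pair_of_act e3 e3
  have q34 := X.pair_of_act e3 e4
  have q44 := X.pair_of_act e4 e4
  obtain ⟨r2, xr, r1, r3⟩ := w1
  obtain ⟨s2, xs, s1, s3⟩ := w4
  obtain ⟨mx1, mx2, mx3, mx4⟩ := mx
  obtain ⟨my1, my2, my3, my4⟩ := my
  simp [pair] at q11 q12 q13 q14 q22 q23 q24 q33 q34 q44
  have two : (2 : ℤ) ≠ 0 := by norm_num
  have pp : my3 * (1 + k * my2 + a * my3) - my1 * my4 = 0 := by
    apply mul_left_cancel₀ (mul_ne_zero two (mul_ne_zero hk hk))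
    linear_combination q22
  have qp : (1 + k * mx3 + a * my3) * (1 + k * my2 + a * my3)
      + (k * (k * mx2 + a * mx3) + a * (k * my2 + a * my3)) * my3
      - (k * mx1 + a * my1) * my4 - (k * mx4 + a * my4) * my1 = 1 := by
    apply mul_left_cancel₀ hk
    linear_combination q23 - 2 * a * k * pp
  have qq : (1 + k * mx3 + a * my3) * (k * (k * mx2 + a * mx3) + a * (k * my2 + a * my3))
      - (k * mx1 + a * my1) * (k * mx4 + a * my4) = 0 := by
    apply mul_left_cancel₀ two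
    linear_combination q33 - 2 * a * qp - 2 * a * a * pp
  have pr : my3 * (k * xr + a * r1) + (1 + k * my2 + a * my3) * r1 - my1 * r3 - my4 * r2 = 0 := by
    apply mul_left_cancel₀ hk
    linear_combination q12
  have ps : my3 * (k * xs + a * s1) + (1 + k * my2 + a * my3) * s1 - my1 * s3 - my4 * s2 = 0 := by
    apply mul_left_cancel₀ hk
    linear_combination q24
  obtain ⟨g11, g12, g21, g22, p, q, r, s, hdet, ⟨R1, R2, R3, R4⟩, ⟨S1, S2, S3, S4⟩, hcase⟩ :=
    decompose (1 + k * mx3 + a * my3) (k * mx1 + a * my1) (k * mx4 + a * my4)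
      (k * (k * mx2 + a * mx3) + a * (k * my2 + a * my3)) r1 r2 r3 (k * xr + a * r1)
      s1 s2 s3 (k * xs + a * s1) my3 my1 my4 (1 + k * my2 + a * my3) qq pp
      (by apply mul_left_cancel₀ two; linear_combination q11)
      (by apply mul_left_cancel₀ two; linear_combination q44)
      qp (by linear_combination q14) (by linear_combination q13 - a * pr)
      (by linear_combination q34 - a * ps) pr ps
  rcases hcase with ⟨⟨Q1, Q2, Q3, Q4⟩, P1, P2, P3, P4⟩ | ⟨⟨P1, P2, P3, P4⟩, Q1, Q2, Q3, Q4⟩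
  · refine Rep.ok_of_dets hk (X := X) (g11 := g11) (g12 := g12) (g21 := g21) (g22 := g22) (p := p)
      (q := q) (r := r) (s := s) ⟨tΦ, fun v => ?_⟩ hdet
    obtain ⟨v1, v2, v3, v4⟩ := v
    refine ⟨_, X.act_of_basis e1 e2 e3 e4 v1 v2 v3 v4, ?_⟩
    ext i j
    fin_cases i <;> fin_cases j <;>
      simp [mat, Matrix.mul_apply, Fin.sum_univ_two]
    · linear_combination v1 * R1 + (v2 * k + v3 * a) * P1 + v3 * Q1 + v4 * S1
    · linear_combination v1 * R2 + (v2 * k + v3 * a) * P2 + v3 * Q2 + v4 * S2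
    · linear_combination v1 * R3 + (v2 * k + v3 * a) * P3 + v3 * Q3 + v4 * S3
    · linear_combination v1 * R4 + (v2 * k + v3 * a) * P4 + v3 * Q4 + v4 * S4
  · obtain ⟨Ψ, tΨ, oΨ, hΨ⟩ := X.exists_refl_zero
    refine Ok.cancel (X := X) ?_ oΨ
    refine Rep.ok_of_dets hk (X := X) (g11 := -g12) (g12 := g11) (g21 := -g22) (g22 := g21)
      (p := -r) (q := -s) (r := p) (s := q) ⟨tΦ.mul tΨ, fun v => ?_⟩
      (by
        rcases hdet with ⟨h1, h2⟩ | ⟨h1, h2⟩
        · left; exact ⟨by linear_combination h1, by linear_combination h2⟩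
        · right; exact ⟨by linear_combination h1, by linear_combination h2⟩)
    obtain ⟨v1, v2, v3, v4⟩ := v
    have er : refl k a (1, 0, 0, 1) (v1, v2, v3, v4) = (-v4, v2, v3, -v1) := by
      simp [refl, pair]
      ring
    refine ⟨_, by rw [act_mul, hΨ, er, X.act_of_basis e1 e2 e3 e4], ?_⟩
    ext i j
    fin_cases i <;> fin_cases j <;>
      simp [mat, Matrix.mul_apply, Fin.sum_univ_two]
    · linear_combination (-v4) * R1 + (v2 * k + v3 * a) * P1 + v3 * Q1 - v1 * S1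
    · linear_combination (-v4) * R2 + (v2 * k + v3 * a) * P2 + v3 * Q2 - v1 * S2
    · linear_combination (-v4) * R3 + (v2 * k + v3 * a) * P3 + v3 * Q3 - v1 * S3
    · linear_combination (-v4) * R4 + (v2 * k + v3 * a) * P4 + v3 * Q4 - v1 * S4

/-- The Bloch-type conjecture for derived autoequivalences and anti-autoequivalences. -/
theorem bloch (X : EllipticK3 k a H CH Pt Base D) (hk : k ≠ 0) (Φ : D) (ε : ℤˣ)
    (h : ∀ t, (∀ v, X.B t (X.alg v) = 0) → X.act Φ t = (ε : ℤ) • t) (z : CH) :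
    X.ch Φ z = ((X.sgn Φ * ε : ℤˣ) : ℤ) • z := by
  rcases Int.units_eq_one_or ε with rfl | rfl
  · have tΦ : X.TId Φ := fun t ht => by rw [h t ht]; simp
    rw [mul_one]
    exact tΦ.ok hk z
  · obtain ⟨Ψ, h1, h2, h3⟩ := X.shift
    have t : X.TId (Φ * Ψ) := fun t ht => by
      rw [act_mul, h2, map_neg, h t ht]; simp
    have h4 := t.ok hk (-z)
    rw [ch_mul, h3, neg_neg, map_mul, h1, mul_one] at h4
    rw [h4]
    simp

end EllipticK3

end Pool.Agent.Lib.MP_240120_ag
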