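import Pool.Agent.Lib.MP_240120_ag.Final
import Pool.Agent.Lib.MP_240120_ag.CS.Fin

set_option autoImplicit false

/-!
# K3 surfaces of Picard number two: the data, and the theorem
-/

namespace Pool.Agent.Lib.MP_240120_ag

open Pool.Agent.Lib.CSL

/-- A complex K3 surface `X` with `NS(X) = ℤ e₁ ⊕ ℤ e₂`, where `D² = 2 (α x² + β x y + γ y²)` for
`D = x e₁ + y e₂`; its Mukai lattice `H`, its group `CH` of zero-cycles of degree zero modulo rational
equivalence, and the group `D` of its derived autoequivalences and anti-autoequivalences, with the known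
theorems on them that are used. -/
structure K3Two (α β γ : ℤ) (H CH D : Type*) [AddCommGroup H] [AddCommGroup CH] [Group D] where
  /-- The Hodge index theorem: the signature of `NS(X)` is `(1, 1)`. -/
  index : 0 < β ^ 2 - 4 * α * γ
  /-- The Mukai pairing on the Mukai lattice `H⁰ ⊕ H² ⊕ H⁴`. -/
  B : H →+ H →+ ℤ
  /-- The algebraic classes: `alg v` is the Mukai vector `(r, D, s)` with `r = v 0`,
  `D = v 2 • e₁ + v 3 • e₂`, `s = -v 1`. -/
  alg : (Fin 4 → ℤ) →+ H
  /-- The Mukai pairing `(r, D, s)² = D² - 2 r s` of algebraic classes. -/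
  square : ∀ v, B (alg v) (alg v) = 2 * qf α β γ v
  /-- `-1` on anti-autoequivalences, `1` on autoequivalences. -/
  sgn : D →* ℤˣ
  /-- The action on the Mukai lattice. -/
  act : D →* AddMonoid.End H
  /-- The action on the zero-cycles of degree zero. -/
  ch : D →* AddMonoid.End CH
  /-- The criterion of the problem file: the conjecture holds if `W(X)` is a congruence subgroup
  of the orthogonal group of the lattice of algebraic classes. The group `W(X)` contains the
  reflections in the vectors of square `2` and `-2`, and these generate `W2 α β γ`. -/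
  criterion : (∃ M : ℕ, 0 < M ∧ ∀ g ∈ OL α β γ, (∀ v i, (M : ℤ) ∣ g v i - v i) → g ∈ W2 α β γ) →
    ∀ (Φ : D) (ε : ℤˣ), (∀ t, (∀ v, B t (alg v) = 0) → act Φ t = (ε : ℤ) • t) →
      ∀ z, ch Φ z = ((sgn Φ * ε : ℤˣ) : ℤ) • z
  /-- If `NS(X)` contains a class `x e₁ + y e₂ ≠ 0` of square zero, then `X` has an elliptic fibration:
  there are a basis `f`, `h` of `NS(X)`, where `f` is the class of a fibre and `f · h = k > 0`,
  `h² = 2a`, and the data `EllipticK3`, with the same algebraic classes, the same group of derived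
  (anti-)autoequivalences and the same actions. -/
  elliptic : (∃ x y : ℤ, (x ≠ 0 ∨ y ≠ 0) ∧ α * x ^ 2 + β * x * y + γ * y ^ 2 = 0) →
    ∃ (k a : ℤ) (Pt Base : Type) (E : EllipticK3 k a H CH Pt Base D), 0 < k ∧ E.B = B ∧
      Set.range E.alg = Set.range alg ∧ E.sgn = sgn ∧ E.act = act ∧ E.ch = ch

variable {α β γ : ℤ} {H CH D : Type*} [AddCommGroup H] [AddCommGroup CH] [Group D]

/-- a binary form of square discriminant is isotropic -/
theorem exists_isotropic {n : ℤ} (h : β ^ 2 - 4 * α * γ = n * n) :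
    ∃ x y : ℤ, (x ≠ 0 ∨ y ≠ 0) ∧ α * x ^ 2 + β * x * y + γ * y ^ 2 = 0 := by
  by_cases hα : α = 0
  · exact ⟨1, 0, Or.inl one_ne_zero, by rw [hα]; ring⟩
  · refine ⟨n - β, 2 * α, Or.inr (by simpa using hα), ?_⟩
    linear_combination (-α) * h

/-- Q1 for K3 surfaces of Picard number two -/
theorem K3Two.bloch (X : K3Two α β γ H CH D) (Φ : D) (ε : ℤˣ)
    (hΦ : ∀ t, (∀ v, X.B t (X.alg v) = 0) → X.act Φ t = (ε : ℤ) • t) (z : CH) :
    X.ch Φ z = ((X.sgn Φ * ε : ℤˣ) : ℤ) • z := by
  by_cases h : ∀ n : ℤ, β ^ 2 - 4 * α * γ ≠ n * n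
  · exact X.criterion (main α β γ X.index h (W2 α β γ) fun v g hv hg =>
      Subgroup.subset_closure ⟨v, hv, hg⟩) Φ ε hΦ z
  · rw [not_forall] at h
    obtain ⟨n, hn⟩ := h
    obtain ⟨k, a, Pt, Base, E, hk, hB, halg, hsgn, hact, hch⟩ :=
      X.elliptic (exists_isotropic (not_not.1 hn))
    rw [← hch, ← hsgn]
    refine E.bloch hk.ne' Φ ε (fun t ht => ?_) z
    rw [hact]
    refine hΦ t fun v => ?_
    obtain ⟨w, hw⟩ : X.alg v ∈ Set.range E.alg := by
      rw [halg]
      exact ⟨v, rfl⟩
    rw [← hw, ← hB]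
    exact ht w

end Pool.Agent.Lib.MP_240120_ag
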