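import Pool.Agent.Lib.MP_240120_ag.TwoIso
import Pool.Agent.Lib.MP_240120_ag.CS.Fin

set_option autoImplicit false

/-! # The anisotropic case: the lattice theorem and the criterion -/

namespace Pool.Agent.Lib.MP_240120_ag.Two

variable {α β γ : ℤ}

/-- the coordinates `(r, x, y, s) ↦ (r, -s, x, y)` -/
private def E : Vec ≃ₗ[ℤ] (Fin 4 → ℤ) where
  toFun v := ![v.1, -v.2.2.2, v.2.1, v.2.2.1]
  map_add' v w := by
    funext i
    fin_cases i <;> simp
    ring
  map_smul' c v := by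
    funext i
    fin_cases i <;> simp
  invFun u := (u 0, u 2, u 3, -u 1)
  left_inv v := by simp
  right_inv u := by
    funext i
    fin_cases i <;> simp

private theorem E_apply (v : Vec) : E v = ![v.1, -v.2.2.2, v.2.1, v.2.2.1] := rfl

private theorem pol_E (v w : Vec) : CSL.pol α β γ (E v) (E w) = pair α β γ v w := by
  simp only [CSL.pol, E_apply, pair, inter]
  simp
  ring

private theorem qf_E (v : Vec) : 2 * CSL.qf α β γ (E v) = pair α β γ v v := by
  simp only [CSL.qf, E_apply, pair, inter]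
  simp
  ring

/-- conjugation with the coordinates -/
private def cj : ((Fin 4 → ℤ) ≃ₗ[ℤ] (Fin 4 → ℤ)) →* (Vec ≃ₗ[ℤ] Vec) where
  toFun g := (E.trans g).trans E.symm
  map_one' := by
    ext v <;> simp
  map_mul' g h := by
    refine LinearEquiv.ext fun v => ?_
    simp

private theorem cj_apply (g : (Fin 4 → ℤ) ≃ₗ[ℤ] (Fin 4 → ℤ)) (v : Vec) : cj g v = E.symm (g (E v)) := rfl

/-- The group `W(X)` is a congruence subgroup if there is no class of square zero. -/
theorem congruence {α β γ : ℤ} (h0 : 0 < β ^ 2 - 4 * α * γ) (hD : ∀ n : ℤ, β ^ 2 - 4 * α * γ ≠ n * n)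
    (W : Subgroup (Vec ≃ₗ[ℤ] Vec))
    (hW : ∀ (e : ℤ) (δ : Vec), e = 1 ∨ e = -1 → pair α β γ δ δ = 2 * e →
      ∀ g : Vec ≃ₗ[ℤ] Vec, (∀ v, g v = refl α β γ e δ v) → g ∈ W) :
    ∃ M : ℕ, 0 < M ∧ ∀ g : Vec ≃ₗ[ℤ] Vec, (∀ v w, pair α β γ (g v) (g w) = pair α β γ v w) →
      (∀ v, ∃ w, g v = v + (M : ℤ) • w) → g ∈ W := by
  obtain ⟨M, hM, h⟩ := CSL.main α β γ h0 hD (W.comap cj) (fun v g hv hg => by
    rw [Subgroup.mem_comap]
    refine hW (CSL.qf α β γ v) (E.symm v) hv ?_ _ fun u => ?_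
    · rw [← qf_E, E.apply_symm_apply]
    · rw [cj_apply, hg, map_sub, map_smul, E.symm_apply_apply, refl]
      congr 2
      have h1 := pol_E (α := α) (β := β) (γ := γ) (E.symm v) u
      rw [E.apply_symm_apply] at h1
      rw [h1]
      congr 1
      simp only [pair, inter]
      ring)
  refine ⟨M, hM, fun g hg hgM => ?_⟩
  have h2 := h ((E.symm.trans g).trans E) (fun v => ?_) (fun v i => ?_)
  · rw [Subgroup.mem_comap] at h2
    have h3 : cj ((E.symm.trans g).trans E) = g := by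
      refine LinearEquiv.ext fun v => ?_
      simp [cj_apply]
    rwa [h3] at h2
  · have h4 : 2 * CSL.qf α β γ (((E.symm.trans g).trans E) v) = 2 * CSL.qf α β γ v := by
      have h5 : ((E.symm.trans g).trans E) v = E (g (E.symm v)) := rfl
      rw [h5, qf_E, hg, ← qf_E, E.apply_symm_apply]
    linarith
  · obtain ⟨w, hw⟩ := hgM (E.symm v)
    have h5 : ((E.symm.trans g).trans E) v = E (g (E.symm v)) := rfl
    rw [h5, hw, map_add, map_smul, E.apply_symm_apply]
    simp

/-- The theorem for K3 surfaces of Picard number two. -/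
theorem bloch {H CH Pt Base D : Type*} [AddCommGroup H] [AddCommGroup CH] [Group D]
    (X : PicardTwoK3 α β γ H CH Pt Base D) (Φ : D) (ε : ℤˣ)
    (h : ∀ t, (∀ v, X.B t (X.alg v) = 0) → X.act Φ t = (ε : ℤ) • t) (z : CH) :
    X.ch Φ z = ((X.sgn Φ * ε : ℤˣ) : ℤ) • z := by
  by_cases hd : ∃ d : ℤ, β ^ 2 - 4 * α * γ = d * d
  · obtain ⟨d, hd⟩ := hd
    exact bloch_iso X hd Φ ε h z
  · exact X.criterion (congruence X.hodge_index (fun n hn => hd ⟨n, hn⟩) X.W X.refl_mem) Φ ε h z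

end Pool.Agent.Lib.MP_240120_ag.Two
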