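import Pool.Agent.Lib.MP_240120_ag.Defs

set_option autoImplicit false

/-!
# K3 surfaces of Picard number two: the data

`NS(X) = ℤ h₁ ⊕ ℤ h₂` with `h₁² = 2α`, `h₁ · h₂ = β`, `h₂² = 2γ`. An algebraic Mukai vector
`(r, x h₁ + y h₂, s)` is the quadruple `(r, x, y, s)` of `Vec`.
-/

namespace Pool.Agent.Lib.MP_240120_ag.Two

/-- The intersection number of the classes `x h₁ + y h₂` and `m h₁ + n h₂`. -/
def inter (α β γ x y m n : ℤ) : ℤ := 2 * α * (x * m) + β * (x * n + y * m) + 2 * γ * (y * n)

/-- The Mukai pairing `D · D' - r s' - s r'` of `(r, D, s)` and `(r', D', s')`. -/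
def pair (α β γ : ℤ) (v w : Vec) : ℤ :=
  inter α β γ v.2.1 v.2.2.1 w.2.1 w.2.2.1 - v.1 * w.2.2.2 - v.2.2.2 * w.1

/-- Multiplication by `exp L`, `L = m h₁ + n h₂`, the action of the twist by the line bundle `L`:
`(r, D, s) ↦ (r, D + r L, s + D · L + r L² / 2)`. -/
def expo (α β γ m n : ℤ) (v : Vec) : Vec :=
  (v.1, v.2.1 + v.1 * m, v.2.2.1 + v.1 * n,
    v.2.2.2 + inter α β γ v.2.1 v.2.2.1 m n + v.1 * (α * (m * m) + β * (m * n) + γ * (n * n)))

/-- The reflection `v ↦ v - e (v, δ) δ` in a vector `δ` of square `2e`, `e = ±1`. -/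
def refl (α β γ e : ℤ) (δ v : Vec) : Vec := v - (e * pair α β γ v δ) • δ

/-- A complex K3 surface `X` with `NS(X) = ℤ h₁ ⊕ ℤ h₂`, `h₁² = 2α`, `h₁ · h₂ = β`, `h₂² = 2γ`; its
Mukai lattice `H`, its group `CH` of zero-cycles of degree zero modulo rational equivalence, its
points `Pt`, the points `Base` of `ℙ¹`, and the group `D` of its derived autoequivalences and
anti-autoequivalences, with the known theorems on them that are used. -/
structure PicardTwoK3 (α β γ : ℤ) (H CH Pt Base D : Type*) [AddCommGroup H] [AddCommGroup CH]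
    [Group D] where
  /-- `NS(X)` is nondegenerate and indefinite (Hodge index theorem). -/
  hodge_index : 0 < β ^ 2 - 4 * α * γ
  /-- The Mukai pairing on the Mukai lattice `H⁰ ⊕ H² ⊕ H⁴`. -/
  B : H →+ H →+ ℤ
  symm : ∀ x y, B x y = B y x
  /-- The algebraic classes `(r, x h₁ + y h₂, s)` in the Mukai lattice. -/
  alg : Vec →+ H
  pair_alg : ∀ v w, B (alg v) (alg w) = pair α β γ v w
  /-- The Mukai lattice is unimodular and the algebraic classes are a primitive sublattice: every
  homomorphism from the algebraic classes to `ℤ` is the pairing with some class. -/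
  unimodular : ∀ l : Vec →+ ℤ, ∃ y, ∀ v, B y (alg v) = l v
  /-- The classes orthogonal to the transcendental lattice `T(X)` are algebraic. -/
  primitive : ∀ y, (∀ t, (∀ v, B t (alg v) = 0) → B y t = 0) → ∃ v, alg v = y
  /-- The class of the zero-cycle `x - y`. -/
  cyc : Pt → Pt → CH
  cyc_add : ∀ x y z, cyc x y + cyc y z = cyc x z
  /-- These classes generate the group of zero-cycles of degree zero. -/
  generate : AddSubgroup.closure {z | ∃ x y, z = cyc x y} = ⊤
  /-- The points on the rational curves in `X`. -/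
  rat : Set Pt
  /-- All points on rational curves are rationally equivalent (Beauville-Voisin). -/
  beauville_voisin : ∀ x ∈ rat, ∀ y ∈ rat, cyc x y = 0
  /-- `-1` on anti-autoequivalences, `1` on autoequivalences. -/
  sgn : D →* ℤˣ
  /-- The action on the Mukai lattice. -/
  act : D →* AddMonoid.End H
  isometry : ∀ Φ x y, B (act Φ x) (act Φ y) = B x y
  /-- The action on the zero-cycles of degree zero. -/
  ch : D →* AddMonoid.End CH
  /-- The shift. -/
  shift : ∃ Φ, sgn Φ = 1 ∧ (∀ x, act Φ x = -x) ∧ ∀ z, ch Φ z = -z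
  /-- The duality functor. -/
  dual : ∃ Φ, sgn Φ = -1 ∧ (∀ t, (∀ v, B t (alg v) = 0) → act Φ t = -t) ∧
    (∀ v : Vec, act Φ (alg v) = alg (v.1, -v.2.1, -v.2.2.1, v.2.2.2)) ∧ ∀ z, ch Φ z = z
  /-- The twist by the line bundle `m h₁ + n h₂`. -/
  twist : ∀ m n : ℤ, ∃ Φ, sgn Φ = 1 ∧ (∀ t, (∀ v, B t (alg v) = 0) → act Φ t = t) ∧
    (∀ v : Vec, act Φ (alg v) = alg (expo α β γ m n v)) ∧ ∀ z, ch Φ z = z
  /-- The spherical twists (every vector of square `-2` is the Mukai vector of a spherical object
  (Kuleshov, Mukai), and spherical twists act as the identity on zero-cycles of degree zero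
  (Huybrechts)). -/
  spherical : ∀ δ : Vec, pair α β γ δ δ = -2 → ∃ Φ, sgn Φ = 1 ∧
    (∀ t, (∀ v, B t (alg v) = 0) → act Φ t = t) ∧
    (∀ v : Vec, act Φ (alg v) = alg (refl α β γ (-1) δ v)) ∧ ∀ z, ch Φ z = z
  /-- If there is a nonzero class of square zero, then there is an elliptic fibration `X ⟶ ℙ¹`, with
  a primitive fibre class `f = m h₁ + n h₂`. Some rational curve is not contained in a fibre, as every
  ample class is a sum of classes of rational curves (Bogomolov-Mumford): it meets every fibre. Let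
  `k` be the index (the positive generator of the group of the fibre degrees `D · f`). The relative
  Fourier-Mukai transforms (Bridgeland): for a matrix `(c, e; k d, b)` of determinant one with
  `b ≡ 1` modulo `k` there is an autoequivalence, linear over `ℙ¹`, which acts by this matrix on rank
  and fibre degree; for suitable kernels it acts on the zero-cycles of degree zero of every fibre as
  the identity (the moduli space of stable sheaves of rank `e` and degree `b` on a smooth fibre `F` is
  identified with `F` by the determinant). -/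
  elliptic : (∃ x y : ℤ, ¬ (x = 0 ∧ y = 0) ∧ inter α β γ x y x y = 0) →
    ∃ (m n : ℤ) (fib : Pt → Base), IsCoprime m n ∧ inter α β γ m n m n = 0 ∧
      (∀ x, ∃ y ∈ rat, fib y = fib x) ∧
      ∀ k : ℤ, 0 < k → (∀ x y, k ∣ inter α β γ x y m n) → (∃ x y, inter α β γ x y m n = k) →
        ∀ b c d e : ℤ, c * b - e * (k * d) = 1 → k ∣ b - 1 → ∃ Φ, sgn Φ = 1 ∧
          (∀ t, (∀ v, B t (alg v) = 0) → act Φ t = t) ∧
          (∀ v w : Vec, act Φ (alg v) = alg w →
            w.1 = c * v.1 + e * inter α β γ v.2.1 v.2.2.1 m n ∧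
            inter α β γ w.2.1 w.2.2.1 m n = k * d * v.1 + b * inter α β γ v.2.1 v.2.2.1 m n) ∧
          ∀ x y, fib x = fib y → ch Φ (cyc x y) = cyc x y
  /-- Autoequivalences acting as the identity on the Mukai lattice act as the identity on the
  zero-cycles of degree zero (known), and anti-autoequivalences do not act as the identity on the
  Mukai lattice (Huybrechts-Macri-Stellari). -/
  faithful : ∀ Φ, act Φ = 1 → sgn Φ = 1 ∧ ∀ z, ch Φ z = z
  /-- The group `W(X)` generated by the reflexive involutions of the lattice of the algebraic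
  classes. -/
  W : Subgroup (Vec ≃ₗ[ℤ] Vec)
  /-- The reflections in the vectors of square `2` and `-2` are reflexive involutions. -/
  refl_mem : ∀ (e : ℤ) (δ : Vec), e = 1 ∨ e = -1 → pair α β γ δ δ = 2 * e →
    ∀ g : Vec ≃ₗ[ℤ] Vec, (∀ v, g v = refl α β γ e δ v) → g ∈ W
  /-- The criterion of Li-Yu-Zhang for Picard number two: if `W(X)` is a congruence subgroup (it
  contains all isometries which are the identity modulo some `M > 0`), then the conjecture holds
  for `X`. -/
  criterion : (∃ M : ℕ, 0 < M ∧ ∀ g : Vec ≃ₗ[ℤ] Vec, (∀ v w, pair α β γ (g v) (g w) = pair α β γ v w) →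
      (∀ v, ∃ w, g v = v + (M : ℤ) • w) → g ∈ W) →
    ∀ (Φ : D) (ε : ℤˣ), (∀ t, (∀ v, B t (alg v) = 0) → act Φ t = (ε : ℤ) • t) →
      ∀ z, ch Φ z = ((sgn Φ * ε : ℤˣ) : ℤ) • z

end Pool.Agent.Lib.MP_240120_ag.Two
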