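import Pool.Agent.Lib.MP_240120_ag.TwoDefs
import Pool.Agent.Lib.MP_240120_ag.Final

set_option autoImplicit false

/-! # The isotropic case: reduction to `EllipticK3` -/

namespace Pool.Agent.Lib.MP_240120_ag.Two

variable {α β γ : ℤ}

/-- the change of basis `(r, x, y, s) ↦ (r, x m + y u, x n + y w, s)` -/
private def T (m n u w : ℤ) : Vec →+ Vec where
  toFun v := (v.1, v.2.1 * m + v.2.2.1 * u, v.2.1 * n + v.2.2.1 * w, v.2.2.2)
  map_zero' := by simp
  map_add' v v' := by
    ext
    · simp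
    · simp only [Prod.fst_add, Prod.snd_add]; ring
    · simp only [Prod.fst_add, Prod.snd_add]; ring
    · simp

/-- its inverse, `σ = m w - n u`, `σ * σ = 1` -/
private def S (m n u w σ : ℤ) : Vec →+ Vec where
  toFun v := (v.1, σ * (w * v.2.1 - u * v.2.2.1), σ * (m * v.2.2.1 - n * v.2.1), v.2.2.2)
  map_zero' := by simp
  map_add' v v' := by
    ext
    · simp
    · simp only [Prod.fst_add, Prod.snd_add]; ring
    · simp only [Prod.fst_add, Prod.snd_add]; ring
    · simp

private theorem T_apply (m n u w : ℤ) (v : Vec) : T m n u w v = (v.1, v.2.1 * m + v.2.2.1 * u, v.2.1 * n + v.2.2.1 * w, v.2.2.2) := rfl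

private theorem TS {m n u w σ : ℤ} (h : m * w - n * u = σ) (hσ : σ * σ = 1) (v : Vec) : T m n u w (S m n u w σ v) = v := by
  obtain ⟨r, x, y, s⟩ := v
  simp only [T, S, AddMonoidHom.coe_mk, ZeroHom.coe_mk, Prod.mk.injEq, true_and, and_true]
  constructor
  · linear_combination σ * x * h + x * hσ
  · linear_combination σ * y * h + y * hσ

private theorem ST {m n u w σ : ℤ} (h : m * w - n * u = σ) (hσ : σ * σ = 1) (v : Vec) : S m n u w σ (T m n u w v) = v := by
  obtain ⟨r, x, y, s⟩ := v
  simp only [T, S, AddMonoidHom.coe_mk, ZeroHom.coe_mk, Prod.mk.injEq, true_and, and_true]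
  constructor
  · linear_combination σ * x * h + x * hσ
  · linear_combination σ * y * h + y * hσ

private theorem pair_T {m n u w k a : ℤ} (h0 : inter α β γ m n m n = 0) (hk : inter α β γ u w m n = k)
    (ha : α * (u * u) + β * (u * w) + γ * (w * w) = a) (v v' : Vec) :
    pair α β γ (T m n u w v) (T m n u w v') = MP_240120_ag.pair k a v v' := by
  obtain ⟨r, x, y, s⟩ := v
  obtain ⟨r', x', y', s'⟩ := v'
  subst hk ha
  simp only [inter] at h0
  simp only [pair, MP_240120_ag.pair, T_apply, inter]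
  linear_combination (x * x') * h0

private theorem expo_T {m n u w k a : ℤ} (h0 : inter α β γ m n m n = 0) (hk : inter α β γ u w m n = k)
    (ha : α * (u * u) + β * (u * w) + γ * (w * w) = a) (i j : ℤ) (v : Vec) :
    expo α β γ (i * m + j * u) (i * n + j * w) (T m n u w v) = T m n u w (MP_240120_ag.expo k a i j v) := by
  obtain ⟨r, x, y, s⟩ := v
  subst hk ha
  simp only [inter] at h0
  simp only [expo, MP_240120_ag.expo, T_apply, inter, Prod.mk.injEq, true_and]
  refine ⟨by ring, by ring, ?_⟩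
  have h0' : α * (m * m) + β * (m * n) + γ * (n * n) = 0 := by linarith
  linear_combination (2 * x * i + r * i * i) * h0'

private theorem refl_T {m n u w k a : ℤ} (h0 : inter α β γ m n m n = 0) (hk : inter α β γ u w m n = k)
    (ha : α * (u * u) + β * (u * w) + γ * (w * w) = a) (δ v : Vec) :
    refl α β γ (-1) (T m n u w δ) (T m n u w v) = T m n u w (MP_240120_ag.refl k a δ v) := by
  rw [refl, MP_240120_ag.refl, pair_T h0 hk ha, map_add, map_zsmul]
  rw [neg_one_mul, neg_smul, sub_neg_eq_add]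

/-- the reduction -/
private def toElliptic {H CH Pt Base D : Type*} [AddCommGroup H] [AddCommGroup CH] [Group D]
    (X : PicardTwoK3 α β γ H CH Pt Base D) {m n u w k a σ : ℤ} (hσ1 : m * w - n * u = σ) (hσ : σ * σ = 1)
    (h0 : inter α β γ m n m n = 0) (hk : inter α β γ u w m n = k)
    (ha : α * (u * u) + β * (u * w) + γ * (w * w) = a) (fib : Pt → Base)
    (hfib : ∀ x, ∃ y ∈ X.rat, fib y = fib x)
    (hrel : ∀ b c d e : ℤ, c * b - e * (k * d) = 1 → k ∣ b - 1 → ∃ Φ, X.sgn Φ = 1 ∧
          (∀ t, (∀ v, X.B t (X.alg v) = 0) → X.act Φ t = t) ∧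
          (∀ v w : Vec, X.act Φ (X.alg v) = X.alg w →
            w.1 = c * v.1 + e * inter α β γ v.2.1 v.2.2.1 m n ∧
            inter α β γ w.2.1 w.2.2.1 m n = k * d * v.1 + b * inter α β γ v.2.1 v.2.2.1 m n) ∧
          ∀ x y, fib x = fib y → X.ch Φ (X.cyc x y) = X.cyc x y) :
    EllipticK3 k a H CH Pt Base D := by
  have hT : ∀ t, (∀ v, X.B t (X.alg (T m n u w v)) = 0) → ∀ v, X.B t (X.alg v) = 0 := fun t ht v => by
    rw [← TS hσ1 hσ v]
    exact ht _
  have hdeg : ∀ v : Vec, inter α β γ (T m n u w v).2.1 (T m n u w v).2.2.1 m n = k * v.2.2.1 := fun v => by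
    subst hk
    simp only [inter] at h0
    simp only [T_apply, inter]
    linear_combination v.2.1 * h0
  exact
  { B := X.B
    symm := X.symm
    alg := X.alg.comp (T m n u w)
    pair_alg := fun v v' => by
      rw [AddMonoidHom.comp_apply, AddMonoidHom.comp_apply, X.pair_alg, pair_T h0 hk ha]
    unimodular := fun l => by
      obtain ⟨y, hy⟩ := X.unimodular (l.comp (S m n u w σ))
      refine ⟨y, fun v => ?_⟩
      rw [AddMonoidHom.comp_apply, hy, AddMonoidHom.comp_apply, ST hσ1 hσ]
    primitive := fun y hy => by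
      obtain ⟨v, hv⟩ := X.primitive y (fun t ht => hy t (fun v => ht _))
      refine ⟨S m n u w σ v, ?_⟩
      rw [AddMonoidHom.comp_apply, TS hσ1 hσ, hv]
    fib := fib
    cyc := X.cyc
    cyc_add := X.cyc_add
    generate := X.generate
    rat := X.rat
    beauville_voisin := X.beauville_voisin
    horizontal := hfib
    sgn := X.sgn
    act := X.act
    isometry := X.isometry
    ch := X.ch
    shift := X.shift
    dual := by
      obtain ⟨Φ, h1, h2, h3, h4⟩ := X.dual
      refine ⟨Φ, h1, fun t ht => h2 t (hT t ht), fun v => ?_, h4⟩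
      rw [AddMonoidHom.comp_apply, AddMonoidHom.comp_apply, h3]
      congr 1
      simp only [T_apply, Prod.mk.injEq, true_and, and_true]
      constructor <;> ring
    twist := fun i j => by
      obtain ⟨Φ, h1, h2, h3, h4⟩ := X.twist (i * m + j * u) (i * n + j * w)
      refine ⟨Φ, h1, fun t ht => h2 t (hT t ht), fun v => ?_, h4⟩
      rw [AddMonoidHom.comp_apply, AddMonoidHom.comp_apply, h3, expo_T h0 hk ha]
    spherical := fun δ hδ => by
      obtain ⟨Φ, h1, h2, h3, h4⟩ := X.spherical (T m n u w δ) (by rw [pair_T h0 hk ha, hδ])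
      refine ⟨Φ, h1, fun t ht => h2 t (hT t ht), fun v => ?_, h4⟩
      rw [AddMonoidHom.comp_apply, AddMonoidHom.comp_apply, h3, refl_T h0 hk ha]
    relative := fun b c d e h5 h6 => by
      obtain ⟨Φ, h1, h2, h3, h4⟩ := hrel b c d e h5 h6
      refine ⟨Φ, h1, fun t ht => h2 t (hT t ht), fun v v' hv => ?_, h4⟩
      have h7 := h3 _ _ hv
      rw [hdeg, hdeg] at h7
      exact h7
    faithful := X.faithful }

private theorem exists_iso {d : ℤ} (hd : β ^ 2 - 4 * α * γ = d * d) :
    ∃ x y : ℤ, ¬ (x = 0 ∧ y = 0) ∧ inter α β γ x y x y = 0 := by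
  by_cases hα : α = 0
  · exact ⟨1, 0, by simp, by simp [inter, hα]⟩
  · refine ⟨d - β, 2 * α, fun h => hα (by linarith [h.2]), ?_⟩
    simp only [inter]
    linear_combination (-2 * α) * hd

/-- The theorem for K3 surfaces of Picard number two with a class of square zero. -/
theorem bloch_iso {H CH Pt Base D : Type*} [AddCommGroup H] [AddCommGroup CH] [Group D]
    (X : PicardTwoK3 α β γ H CH Pt Base D) {d : ℤ} (hd : β ^ 2 - 4 * α * γ = d * d) (Φ : D) (ε : ℤˣ)
    (h : ∀ t, (∀ v, X.B t (X.alg v) = 0) → X.act Φ t = (ε : ℤ) • t) (z : CH) :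
    X.ch Φ z = ((X.sgn Φ * ε : ℤˣ) : ℤ) • z := by
  have hpos := X.hodge_index
  obtain ⟨m, n, fib, hmn, h0, hfib, hrel⟩ := X.elliptic (exists_iso hd)
  obtain ⟨w0, u0, huw⟩ := hmn
  -- `w0 * m + u0 * n = 1`
  have hk2 : inter α β γ (-u0) w0 m n * inter α β γ (-u0) w0 m n = β ^ 2 - 4 * α * γ := by
    have h0' : α * (m * m) + β * (m * n) + γ * (n * n) = 0 := by
      simp only [inter] at h0
      linarith
    have e1 : inter α β γ (-u0) w0 m n * inter α β γ (-u0) w0 m n =
        (β ^ 2 - 4 * α * γ) * (w0 * m + u0 * n) ^ 2 +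
          4 * (α * (u0 * u0) - β * (u0 * w0) + γ * (w0 * w0)) * (α * (m * m) + β * (m * n) + γ * (n * n)) := by
      simp only [inter]
      ring
    rw [e1, h0', huw]
    ring
  have key : ∀ σ : ℤ, σ * σ = 1 → 0 < inter α β γ (σ * (-u0)) (σ * w0) m n → X.ch Φ z = ((X.sgn Φ * ε : ℤˣ) : ℤ) • z := by
    intro σ hσ hk
    set k := inter α β γ (σ * (-u0)) (σ * w0) m n with hkdef
    have hσ1 : m * (σ * w0) - n * (σ * (-u0)) = σ := by linear_combination σ * huw
    have hdvd : ∀ x y, k ∣ inter α β γ x y m n := by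
      intro x y
      refine ⟨σ * (m * y - n * x), ?_⟩
      simp only [inter] at h0
      rw [hkdef]
      simp only [inter]
      have e1 : x = (w0 * m + u0 * n) * x := by rw [huw, one_mul]
      have e2 : y = (w0 * m + u0 * n) * y := by rw [huw, one_mul]
      linear_combination (2 * α * m + β * n) * e1 + (β * m + 2 * γ * n) * e2 + (w0 * x + u0 * y) * h0 -
        (2 * α * (-u0) * m + β * ((-u0) * n + w0 * m) + 2 * γ * w0 * n) * (m * y - n * x) * hσ
    refine (toElliptic X hσ1 hσ h0 hkdef.symm rfl fib hfib (hrel k hk hdvd ⟨_, _, hkdef.symm⟩)).bloch hk.ne' Φ ε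
      (fun t ht => h t (fun v => ?_)) z
    have ht' : X.B t (X.alg (T m n (σ * (-u0)) (σ * w0) (S m n (σ * (-u0)) (σ * w0) σ v))) = 0 := ht _
    rw [TS hσ1 hσ] at ht'
    exact ht'
  have hne : inter α β γ (-u0) w0 m n ≠ 0 := fun h1 => by
    rw [h1] at hk2
    linarith
  rcases lt_or_gt_of_ne hne with h1 | h1
  · refine key (-1) (by norm_num) ?_
    have e1 : inter α β γ (-1 * -u0) (-1 * w0) m n = -inter α β γ (-u0) w0 m n := by
      simp only [inter]; ring
    rw [e1]
    linarith
  · refine key 1 (by norm_num) ?_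
    rw [one_mul, one_mul]
    exact h1

end Pool.Agent.Lib.MP_240120_ag.Two
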